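import Mathlib
import Pool.Agent.X184.Leh.S3

/-!
# Sparse relations: local inequalities for a finite family of complex numbers
-/

set_option autoImplicit false

open Finset Polynomial Pool.Agent.H388SL Pool.Agent.X184.Leh

namespace Pool.Agent.X184.Rel

section

variable {ι : Type*} [Fintype ι]

/-- the normalized number -/
noncomputable def nz (z : ℂ) : ℂ := z / ‖z‖

lemma norm_nz {z : ℂ} (h : z ≠ 0) : ‖nz z‖ = 1 := by
  unfold nz
  rw [norm_div, Complex.norm_real, norm_norm, div_self (norm_ne_zero_iff.mpr h)]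

lemma nz_eq {z : ℂ} (h : z ≠ 0) : z = ‖z‖ * nz z := by
  unfold nz
  have : (‖z‖ : ℂ) ≠ 0 := by exact_mod_cast norm_ne_zero_iff.mpr h
  field_simp

/-- the sum of the absolute values of the logarithms -/
noncomputable def LL (z : ι → ℂ) : ℝ := ∑ i, |Real.log ‖z i‖|

/-- power sums of the normalized numbers -/
noncomputable def WL (z : ι → ℂ) (m : ℕ) : ℂ := ∑ i, nz (z i) ^ m

/-- power sums of the reflected numbers -/
noncomputable def UL (z : ι → ℂ) (m : ℕ) : ℂ := ∑ i, H388SL.refl (z i) ^ m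

/-- the entries of the Gram matrix -/
noncomputable def GR (z : ι → ℂ) (a b : ℕ) : ℂ :=
  ∑ i, nz (z i) ^ a * starRingEnd ℂ (nz (z i) ^ b)

lemma LL_nonneg (z : ι → ℂ) : 0 ≤ LL z := Finset.sum_nonneg fun _ _ => abs_nonneg _

lemma WL_sub {z : ι → ℂ} (h0 : ∀ i, z i ≠ 0) (m : ℕ) : ‖WL z m - UL z m‖ ≤ m * LL z := by
  unfold WL UL LL
  rw [← Finset.sum_sub_distrib, Finset.mul_sum]
  refine (norm_sum_le _ _).trans (Finset.sum_le_sum fun i _ => ?_)
  have h1 := norm_pow_sub_le (a := nz (z i)) (b := H388SL.refl (z i)) (norm_nz (h0 i)).le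
    (norm_refl_le _) m
  refine h1.trans (mul_le_mul_of_nonneg_left ?_ (Nat.cast_nonneg m))
  rw [norm_sub_rev]
  exact refl_sub_le (h0 i)

lemma UL_le (z : ι → ℂ) (m : ℕ) : ‖UL z m‖ ≤ Fintype.card ι := by
  unfold UL
  refine (norm_sum_le _ _).trans ?_
  have h : ∀ i ∈ (Finset.univ : Finset ι), ‖H388SL.refl (z i) ^ m‖ ≤ 1 := by
    intro i _
    rw [norm_pow]
    exact pow_le_one₀ (norm_nonneg _) (norm_refl_le _)
  refine (Finset.sum_le_sum h).trans ?_
  simp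

lemma WL_le {z : ι → ℂ} (h0 : ∀ i, z i ≠ 0) (m : ℕ) : ‖WL z m‖ ≤ Fintype.card ι := by
  unfold WL
  refine (norm_sum_le _ _).trans ?_
  have h : ∀ i ∈ (Finset.univ : Finset ι), ‖nz (z i) ^ m‖ ≤ 1 := by
    intro i _
    rw [norm_pow, norm_nz (h0 i), one_pow]
  refine (Finset.sum_le_sum h).trans ?_
  simp

/-- the value of `F` at a normalized zero is small -/
lemma val_small {z : ℂ} (h0 : z ≠ 0) (F : ℂ[X]) (hF : F.eval z = 0) :
    ‖∑ e ∈ F.support, F.coeff e * nz z ^ e‖ ^ 2 ≤ (∑ e ∈ F.support, ‖F.coeff e‖) ^ 2 *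
      (F.natDegree * |Real.log ‖z‖|) := by
  set L := ∑ e ∈ F.support, ‖F.coeff e‖ with hL
  set D : ℝ := (F.natDegree : ℝ) with hD
  have hL0 : 0 ≤ L := Finset.sum_nonneg fun _ _ => norm_nonneg _
  have hpos : 0 < ‖z‖ := norm_pos_iff.mpr h0
  have hu := norm_nz h0
  have hD0 : 0 ≤ D := Nat.cast_nonneg _
  have hm0 : 0 < max 1 ‖z‖ := lt_of_lt_of_le one_pos (le_max_left _ _)
  have hmD : 0 < (max 1 ‖z‖) ^ F.natDegree := pow_pos hm0 _
  set x : ℝ := |Real.log ‖z‖| with hx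
  have hx0 : 0 ≤ x := abs_nonneg _
  have hfac : ∀ e ∈ F.support, 0 ≤ 1 - ‖z‖ ^ e / (max 1 ‖z‖) ^ F.natDegree ∧
      1 - ‖z‖ ^ e / (max 1 ‖z‖) ^ F.natDegree ≤ 1 ∧
      1 - ‖z‖ ^ e / (max 1 ‖z‖) ^ F.natDegree ≤ D * x := by
    intro e he
    have heD : e ≤ F.natDegree := Polynomial.le_natDegree_of_mem_supp e he
    have heD' : (e:ℝ) ≤ D := by rw [hD]; exact_mod_cast heD
    have h1 : ‖z‖ ^ e ≤ (max 1 ‖z‖) ^ F.natDegree :=
      (pow_le_pow_left₀ hpos.le (le_max_right _ _) e).trans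
        (pow_le_pow_right₀ (le_max_left _ _) heD)
    have h2 : 0 < ‖z‖ ^ e / (max 1 ‖z‖) ^ F.natDegree := by positivity
    refine ⟨sub_nonneg.mpr ((div_le_one hmD).mpr h1), by linarith, ?_⟩
    have h3 := Real.log_le_sub_one_of_pos h2
    have h4 : Real.log (‖z‖ ^ e / (max 1 ‖z‖) ^ F.natDegree) =
        e * Real.log ‖z‖ - D * Real.log (max 1 ‖z‖) := by
      rw [Real.log_div (by positivity) hmD.ne', Real.log_pow, Real.log_pow]
    rw [h4] at h3
    have h5 : -(D * x) ≤ e * Real.log ‖z‖ - D * Real.log (max 1 ‖z‖) := by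
      rcases le_total ‖z‖ 1 with h | h
      · have h6 := Real.log_nonpos hpos.le h
        rw [max_eq_left h, Real.log_one, mul_zero, sub_zero, hx, abs_of_nonpos h6]
        nlinarith
      · have h6 := Real.log_nonneg h
        rw [max_eq_right h, hx, abs_of_nonneg h6]
        nlinarith [mul_nonneg (Nat.cast_nonneg e : (0:ℝ) ≤ e) h6]
    linarith
  have hz : ∑ e ∈ F.support, F.coeff e * nz z ^ e =
      ∑ e ∈ F.support, F.coeff e * (((1 - ‖z‖ ^ e / (max 1 ‖z‖) ^ F.natDegree : ℝ)) : ℂ) *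
        nz z ^ e := by
    have h1 : ∑ e ∈ F.support, F.coeff e * ((‖z‖ ^ e : ℝ) : ℂ) * nz z ^ e = 0 := by
      rw [← hF, Polynomial.eval_eq_sum, Polynomial.sum]
      refine Finset.sum_congr rfl fun e _ => ?_
      conv_rhs => rw [nz_eq h0]
      rw [mul_pow]
      push_cast
      ring
    have h2 : ∑ e ∈ F.support, F.coeff e *
        (((‖z‖ ^ e / (max 1 ‖z‖) ^ F.natDegree : ℝ)) : ℂ) * nz z ^ e = 0 := by
      have h3 : ∑ e ∈ F.support, F.coeff e *
          (((‖z‖ ^ e / (max 1 ‖z‖) ^ F.natDegree : ℝ)) : ℂ) * nz z ^ e =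
          (((max 1 ‖z‖) ^ F.natDegree : ℝ) : ℂ)⁻¹ *
            ∑ e ∈ F.support, F.coeff e * ((‖z‖ ^ e : ℝ) : ℂ) * nz z ^ e := by
        rw [Finset.mul_sum]
        refine Finset.sum_congr rfl fun e _ => ?_
        push_cast
        ring
      rw [h3, h1, mul_zero]
    rw [← sub_zero (∑ e ∈ F.support, F.coeff e * nz z ^ e), ← h2, ← Finset.sum_sub_distrib]
    refine Finset.sum_congr rfl fun e _ => ?_
    push_cast
    ring
  have hb1 : ‖∑ e ∈ F.support, F.coeff e * nz z ^ e‖ ≤ L * 1 := by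
    rw [hz, hL, Finset.sum_mul]
    refine (norm_sum_le _ _).trans (Finset.sum_le_sum fun e he => ?_)
    rw [norm_mul, norm_mul, norm_pow, hu, one_pow, mul_one, Complex.norm_real,
      Real.norm_of_nonneg (hfac e he).1]
    exact mul_le_mul_of_nonneg_left (hfac e he).2.1 (norm_nonneg _)
  have hb2 : ‖∑ e ∈ F.support, F.coeff e * nz z ^ e‖ ≤ L * (D * x) := by
    rw [hz, hL, Finset.sum_mul]
    refine (norm_sum_le _ _).trans (Finset.sum_le_sum fun e he => ?_)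
    rw [norm_mul, norm_mul, norm_pow, hu, one_pow, mul_one, Complex.norm_real,
      Real.norm_of_nonneg (hfac e he).1]
    exact mul_le_mul_of_nonneg_left (hfac e he).2.2 (norm_nonneg _)
  have hDx : 0 ≤ D * x := by positivity
  calc ‖∑ e ∈ F.support, F.coeff e * nz z ^ e‖ ^ 2 =
      ‖∑ e ∈ F.support, F.coeff e * nz z ^ e‖ * ‖∑ e ∈ F.support, F.coeff e * nz z ^ e‖ := by
        ring
    _ ≤ (L * 1) * (L * (D * x)) := mul_le_mul hb1 hb2 (norm_nonneg _) (by positivity)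
    _ = _ := by ring

lemma GR_diag {z : ι → ℂ} (h0 : ∀ i, z i ≠ 0) (a : ℕ) : GR z a a = Fintype.card ι := by
  unfold GR
  have h2 : ∀ i, nz (z i) ^ a * starRingEnd ℂ (nz (z i) ^ a) = 1 := by
    intro i
    rw [Complex.mul_conj, Complex.normSq_eq_norm_sq, norm_pow, norm_nz (h0 i)]
    simp
  rw [Finset.sum_congr rfl (fun i _ => h2 i)]
  simp

lemma GR_eq {z : ι → ℂ} (h0 : ∀ i, z i ≠ 0) {a b : ℕ} (hab : b ≤ a) : GR z a b = WL z (a - b) := by
  unfold GR WL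
  refine Finset.sum_congr rfl fun i _ => ?_
  have h1 : nz (z i) ^ a = nz (z i) ^ (a - b) * nz (z i) ^ b := by
    rw [← pow_add, Nat.sub_add_cancel hab]
  rw [h1, mul_assoc, Complex.mul_conj, Complex.normSq_eq_norm_sq, norm_pow, norm_nz (h0 i)]
  simp

lemma GR_conj (z : ι → ℂ) (a b : ℕ) : ‖GR z a b‖ = ‖GR z b a‖ := by
  have e : GR z a b = starRingEnd ℂ (GR z b a) := by
    unfold GR
    rw [map_sum]
    refine Finset.sum_congr rfl fun i _ => ?_
    rw [map_mul, Complex.conj_conj, mul_comm]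
  rw [e, RCLike.norm_conj]

/-- **the Gram matrix of a linear relation** -/
theorem gram_local {z : ι → ℂ} (h0 : ∀ i, z i ≠ 0) (F : ℂ[X]) (hF0 : F ≠ 0)
    (hF : ∀ i, F.eval (z i) = 0) :
    (Fintype.card ι : ℝ) ^ 2 -
      2 * F.support.card * Fintype.card ι * (F.natDegree * LL z) ≤
      ∑ x ∈ F.support.offDiag, ‖GR z x.1 x.2‖ ^ 2 := by
  classical
  set n : ℝ := (Fintype.card ι : ℝ) with hn
  set S := F.support with hS
  set Q := ∑ e ∈ S, ‖F.coeff e‖ ^ 2 with hQ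
  set L := ∑ e ∈ S, ‖F.coeff e‖ with hL
  set Z := ∑ x ∈ S.offDiag, ‖GR z x.1 x.2‖ ^ 2 with hZ
  set Y := ∑ x ∈ S.offDiag, ‖F.coeff x.1‖ * ‖F.coeff x.2‖ * ‖GR z x.1 x.2‖ with hY
  have hZ0 : 0 ≤ Z := Finset.sum_nonneg fun _ _ => sq_nonneg _
  have hn0 : 0 ≤ n := Nat.cast_nonneg _
  have hQ0 : 0 < Q := by
    obtain ⟨i, hi⟩ := Polynomial.support_nonempty.mpr hF0
    apply Finset.sum_pos' (fun _ _ => sq_nonneg _) ⟨i, hi, _⟩
    have : 0 < ‖F.coeff i‖ := norm_pos_iff.mpr (Polynomial.mem_support_iff.mp hi)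
    positivity
  have hY0 : 0 ≤ Y := Finset.sum_nonneg fun _ _ => by positivity
  have hYZ : Y ^ 2 ≤ Q ^ 2 * Z := by
    have h1 := Finset.sum_mul_sq_le_sq_mul_sq S.offDiag (fun x => ‖F.coeff x.1‖ * ‖F.coeff x.2‖)
      (fun x => ‖GR z x.1 x.2‖)
    refine h1.trans (mul_le_mul_of_nonneg_right ?_ (Finset.sum_nonneg fun _ _ => sq_nonneg _))
    rw [sq, hQ, Finset.sum_mul_sum, ← Finset.sum_product']
    have hsub : S.offDiag ⊆ S ×ˢ S := by
      intro x hx
      rw [Finset.mem_offDiag] at hx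
      exact Finset.mem_product.mpr ⟨hx.1, hx.2.1⟩
    have h2 : ∑ x ∈ S.offDiag, (‖F.coeff x.1‖ * ‖F.coeff x.2‖) ^ 2 ≤
        ∑ x ∈ S ×ˢ S, (‖F.coeff x.1‖ * ‖F.coeff x.2‖) ^ 2 :=
      Finset.sum_le_sum_of_subset_of_nonneg hsub (fun _ _ _ => sq_nonneg _)
    refine h2.trans (le_of_eq ?_)
    refine Finset.sum_congr rfl fun x _ => ?_
    ring
  have hLQ : L ^ 2 ≤ S.card * Q := sq_sum_le_card_mul_sum_sq
  have hexp : ∑ i, ‖∑ e ∈ S, F.coeff e * nz (z i) ^ e‖ ^ 2 =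
      ∑ a ∈ S, ∑ b ∈ S, (F.coeff a * starRingEnd ℂ (F.coeff b) * GR z a b).re := by
    have h1 : ∀ i, ‖∑ e ∈ S, F.coeff e * nz (z i) ^ e‖ ^ 2 = ∑ a ∈ S, ∑ b ∈ S,
        (F.coeff a * starRingEnd ℂ (F.coeff b) *
          (nz (z i) ^ a * starRingEnd ℂ (nz (z i) ^ b))).re := by
      intro i
      have h2 : ((‖∑ e ∈ S, F.coeff e * nz (z i) ^ e‖ ^ 2 : ℝ) : ℂ) = ∑ a ∈ S, ∑ b ∈ S,
          (F.coeff a * starRingEnd ℂ (F.coeff b) *
            (nz (z i) ^ a * starRingEnd ℂ (nz (z i) ^ b))) := by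
        rw [← Complex.normSq_eq_norm_sq, ← Complex.mul_conj, map_sum, Finset.sum_mul_sum]
        refine Finset.sum_congr rfl fun j _ => Finset.sum_congr rfl fun l _ => ?_
        rw [map_mul]
        ring
      have h3 := congrArg Complex.re h2
      rw [Complex.ofReal_re, Complex.re_sum] at h3
      rw [h3]
      refine Finset.sum_congr rfl fun j _ => ?_
      rw [Complex.re_sum]
    rw [Finset.sum_congr rfl (fun i _ => h1 i), Finset.sum_comm]
    refine Finset.sum_congr rfl fun j _ => ?_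
    rw [Finset.sum_comm]
    refine Finset.sum_congr rfl fun l _ => ?_
    unfold GR
    rw [Finset.mul_sum, Complex.re_sum]
  have hlow : n * Q - Y ≤ ∑ i, ‖∑ e ∈ S, F.coeff e * nz (z i) ^ e‖ ^ 2 := by
    rw [hexp, ← Finset.sum_product', ← Finset.diag_union_offDiag,
      Finset.sum_union (Finset.disjoint_diag_offDiag S)]
    have h1 : ∑ x ∈ S.diag, (F.coeff x.1 * starRingEnd ℂ (F.coeff x.2) * GR z x.1 x.2).re =
        n * Q := by
      rw [Finset.sum_diag, hQ, Finset.mul_sum]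
      refine Finset.sum_congr rfl fun a _ => ?_
      rw [GR_diag h0, Complex.mul_conj, Complex.normSq_eq_norm_sq, Complex.re_ofReal_mul,
        Complex.natCast_re, hn]
      ring
    have h2 : -Y ≤ ∑ x ∈ S.offDiag, (F.coeff x.1 * starRingEnd ℂ (F.coeff x.2) *
        GR z x.1 x.2).re := by
      rw [hY, ← Finset.sum_neg_distrib]
      refine Finset.sum_le_sum fun x _ => ?_
      have h3 := Complex.abs_re_le_norm (F.coeff x.1 * starRingEnd ℂ (F.coeff x.2) * GR z x.1 x.2)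
      rw [norm_mul, norm_mul, RCLike.norm_conj] at h3
      linarith [neg_abs_le (F.coeff x.1 * starRingEnd ℂ (F.coeff x.2) * GR z x.1 x.2).re]
    rw [h1]
    linarith
  have hup : ∑ i, ‖∑ e ∈ S, F.coeff e * nz (z i) ^ e‖ ^ 2 ≤
      (S.card * Q) * (F.natDegree * LL z) := by
    have h1 : ∑ i, ‖∑ e ∈ S, F.coeff e * nz (z i) ^ e‖ ^ 2 ≤ L ^ 2 * (F.natDegree * LL z) := by
      refine (Finset.sum_le_sum fun i _ => val_small (h0 i) F (hF i)).trans (le_of_eq ?_)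
      unfold LL
      rw [Finset.mul_sum, Finset.mul_sum]
    exact h1.trans (mul_le_mul_of_nonneg_right hLQ
      (mul_nonneg (Nat.cast_nonneg _) (LL_nonneg z)))
  set y : ℝ := F.natDegree * LL z with hy
  have hy0 : 0 ≤ y := mul_nonneg (Nat.cast_nonneg _) (LL_nonneg z)
  set δ : ℝ := n - S.card * y with hδ
  have hexpand : n ^ 2 - 2 * S.card * n * y ≤ δ ^ 2 := by
    have e : δ ^ 2 = n ^ 2 - 2 * S.card * n * y + (S.card * y) ^ 2 := by rw [hδ]; ring
    rw [e]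
    have := sq_nonneg ((S.card : ℝ) * y)
    linarith
  rcases le_or_gt 0 δ with hδ0 | hδ0
  · have h1 : δ * Q ≤ Y := by
      have : (S.card * Q) * y = S.card * y * Q := by ring
      rw [hδ, sub_mul]
      linarith
    have h2 : (δ * Q) ^ 2 ≤ Q ^ 2 * Z := (pow_le_pow_left₀ (by positivity) h1 2).trans hYZ
    have h3 : Q ^ 2 * δ ^ 2 ≤ Q ^ 2 * Z := by
      calc Q ^ 2 * δ ^ 2 = (δ * Q) ^ 2 := by ring
        _ ≤ _ := h2
    exact hexpand.trans (le_of_mul_le_mul_left h3 (by positivity))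
  · have h1 : n ≤ S.card * y := by rw [hδ] at hδ0; linarith
    have h2 : n * n ≤ n * (S.card * y) := mul_le_mul_of_nonneg_left h1 hn0
    nlinarith

/-- **the local inequality** -/
theorem local_main {z : ι → ℂ} (h0 : ∀ i, z i ≠ 0) (F : ℂ[X]) (hF0 : F ≠ 0)
    (hF : ∀ i, F.eval (z i) = 0) :
    (Fintype.card ι : ℝ) ^ 2 ≤
      2 * ∑ m ∈ Finset.Icc 1 F.natDegree, (rr F.support m : ℝ) * ‖UL z m‖ ^ 2 +
      (2 * F.support.card + 2 * (F.support.card : ℝ) ^ 2) * Fintype.card ι *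
        (F.natDegree * LL z) := by
  have hg := gram_local h0 F hF0 hF
  set S := F.support with hS
  set k : ℝ := (S.card : ℝ) with hk
  set n : ℝ := (Fintype.card ι : ℝ) with hn
  set y : ℝ := F.natDegree * LL z with hy
  have hn0 : 0 ≤ n := Nat.cast_nonneg _
  have hLL := LL_nonneg z
  have hy0 : 0 ≤ y := mul_nonneg (Nat.cast_nonneg _) hLL
  rw [sum_offDiag S (fun a b => ‖GR z a b‖ ^ 2) (fun a b => by rw [GR_conj])] at hg
  have hinc : ∑ x ∈ incr S, ‖GR z x.2 x.1‖ ^ 2 ≤ ∑ x ∈ incr S, (fun m : ℕ =>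
      ‖UL z m‖ ^ 2 + 2 * n * y) (x.2 - x.1) := by
    refine Finset.sum_le_sum fun x hx => ?_
    have hx' := hx
    unfold incr at hx'
    rw [Finset.mem_filter, Finset.mem_product] at hx'
    rw [GR_eq h0 hx'.2.le]
    dsimp only
    set m := x.2 - x.1 with hm
    have hmD : (m:ℝ) ≤ F.natDegree := by
      have h1 := Polynomial.le_natDegree_of_mem_supp x.2 hx'.1.2
      have h2 : m ≤ F.natDegree := by omega
      exact_mod_cast h2
    have h1 := WL_sub h0 m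
    have h2 : ‖WL z m‖ ≤ ‖UL z m‖ + y := by
      have h3 := norm_sub_norm_le (WL z m) (UL z m)
      have h4 : (m:ℝ) * LL z ≤ F.natDegree * LL z := mul_le_mul_of_nonneg_right hmD hLL
      linarith
    have h5 := WL_le h0 m
    have h6 := UL_le z m
    rw [← hn] at h5 h6
    have h7 := norm_nonneg (WL z m)
    have h8 := norm_nonneg (UL z m)
    have h9 : ‖WL z m‖ ^ 2 - ‖UL z m‖ ^ 2 = (‖WL z m‖ + ‖UL z m‖) * (‖WL z m‖ - ‖UL z m‖) := by
      ring
    have h10 : (‖WL z m‖ + ‖UL z m‖) * (‖WL z m‖ - ‖UL z m‖) ≤ (2 * n) * y := by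
      calc (‖WL z m‖ + ‖UL z m‖) * (‖WL z m‖ - ‖UL z m‖) ≤ (‖WL z m‖ + ‖UL z m‖) * y :=
            mul_le_mul_of_nonneg_left (by linarith) (by linarith)
        _ ≤ (2 * n) * y := mul_le_mul_of_nonneg_right (by linarith) hy0
    linarith
  rw [sum_incr S (fun e he => Polynomial.le_natDegree_of_mem_supp e he)
    (fun m : ℕ => ‖UL z m‖ ^ 2 + 2 * n * y)] at hinc
  have hsplit : ∑ m ∈ Finset.Icc 1 F.natDegree, (rr S m : ℝ) * (‖UL z m‖ ^ 2 + 2 * n * y) =
      ∑ m ∈ Finset.Icc 1 F.natDegree, (rr S m : ℝ) * ‖UL z m‖ ^ 2 + 2 * n * y * (incr S).card := by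
    rw [← sum_rr S (fun e he => Polynomial.le_natDegree_of_mem_supp e he), Finset.mul_sum,
      ← Finset.sum_add_distrib]
    refine Finset.sum_congr rfl fun m _ => ?_
    ring
  rw [hsplit] at hinc
  have hic : 2 * ((incr S).card : ℝ) ≤ k ^ 2 := by rw [hk]; exact_mod_cast incr_card S
  have h1 : 2 * n * y * (2 * ((incr S).card : ℝ)) ≤ 2 * n * y * k ^ 2 :=
    mul_le_mul_of_nonneg_left hic (by positivity)
  nlinarith

end

end Pool.Agent.X184.Rel
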