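import Mathlib
import Pool.Agent.X184.Rel.A
import Pool.Agent.TH860.LP.Rel2

/-!
# The energy inequality for part of the conjugates, summed over all embeddings
-/

set_option autoImplicit false

open Finset Polynomial Module Pool.Agent.H388SL Pool.Agent.X184.Leh Pool.Agent.Y947.DL

namespace Pool.Agent.X184.Rel

section

variable {E : Type*} [Field E] [NumberField E] {ι : Type*} [Fintype ι] [DecidableEq ι]

lemma sum_log_nonneg {x : E} (hx : IsIntegral ℤ x) (h0 : x ≠ 0) :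
    0 ≤ ∑ τ : E →ₐ[ℚ] ℂ, Real.log ‖τ x‖ := by
  rw [← Real.log_prod]
  · exact Real.log_nonneg (one_le_prod_norm hx h0)
  · intro τ _
    exact norm_ne_zero_iff.mpr ((_root_.map_ne_zero τ).mpr h0)

lemma sum_abs_log_le {x : E} (hx : IsIntegral ℤ x) (h0 : x ≠ 0) :
    ∑ τ : E →ₐ[ℚ] ℂ, |Real.log ‖τ x‖| ≤ 2 * lam x := by
  have h1 := sum_log_nonneg hx h0
  have h2 : ∀ σ : E →ₐ[ℚ] ℂ, |Real.log ‖σ x‖| = 2 * Real.log (max 1 ‖σ x‖) - Real.log ‖σ x‖ := by
    intro σ
    rcases le_total ‖σ x‖ 1 with h | h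
    · have := Real.log_nonpos (norm_nonneg _) h
      rw [max_eq_left h, abs_of_nonpos this, Real.log_one]; ring
    · have := Real.log_nonneg h
      rw [max_eq_right h, abs_of_nonneg this]; ring
  rw [Finset.sum_congr rfl (fun σ _ => h2 σ), Finset.sum_sub_distrib, ← Finset.mul_sum, lam]
  linarith

/-- the sum of the logarithms of the differences -/
noncomputable def DL (w : ι → E) : ℝ :=
  ∑ τ : E →ₐ[ℚ] ℂ, ∑ i, ∑ j, (if i = j then 0 else Real.log ‖τ (w i) - τ (w j)‖)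

lemma DL_swap (w : ι → E) :
    DL w = ∑ i, ∑ j, (if i = j then 0 else ∑ τ : E →ₐ[ℚ] ℂ, Real.log ‖τ (w i) - τ (w j)‖) := by
  unfold DL
  rw [Finset.sum_comm]
  refine Finset.sum_congr rfl fun i _ => ?_
  rw [Finset.sum_comm]
  refine Finset.sum_congr rfl fun j _ => ?_
  split_ifs with h
  · simp
  · rfl

lemma DL_nonneg {w : ι → E} (hint : ∀ i, IsIntegral ℤ (w i)) (hinj : Function.Injective w) :
    0 ≤ DL w := by
  rw [DL_swap]
  refine Finset.sum_nonneg fun i _ => Finset.sum_nonneg fun j _ => ?_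
  split_ifs with h
  · exact le_rfl
  · have h1 := sum_log_nonneg ((hint i).sub (hint j)) (sub_ne_zero.mpr fun e => h (hinj e))
    simpa only [map_sub] using h1

lemma DL_le_pow {w : ι → E} (hint : ∀ i, IsIntegral ℤ (w i)) {m : ℕ}
    (hinj : Function.Injective w) (hinjm : Function.Injective fun i => w i ^ m) :
    DL w ≤ DL fun i => w i ^ m := by
  rw [DL_swap, DL_swap]
  refine Finset.sum_le_sum fun i _ => Finset.sum_le_sum fun j _ => ?_
  split_ifs with h
  · exact le_rfl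
  · set x : E := ∑ l ∈ range m, w i ^ l * w j ^ (m - 1 - l) with hx
    have hxm : x * (w i - w j) = w i ^ m - w j ^ m :=
      Commute.geom_sum₂_mul (Commute.all (w i) (w j)) m
    have hd : w i ^ m - w j ^ m ≠ 0 := sub_ne_zero.mpr fun e => h (hinjm e)
    have hd1 : w i - w j ≠ 0 := sub_ne_zero.mpr fun e => h (hinj e)
    have hx0 : x ≠ 0 := by
      intro e
      rw [e, zero_mul] at hxm
      exact hd hxm.symm
    have hxi : IsIntegral ℤ x := by
      rw [hx]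
      exact IsIntegral.sum _ fun l _ => ((hint i).pow _).mul ((hint j).pow _)
    have h1 := sum_log_nonneg hxi hx0
    have h2 : ∀ τ : E →ₐ[ℚ] ℂ, Real.log ‖τ (w i ^ m) - τ (w j ^ m)‖ =
        Real.log ‖τ x‖ + Real.log ‖τ (w i) - τ (w j)‖ := by
      intro τ
      rw [← map_sub, ← map_sub, ← hxm, map_mul, norm_mul, Real.log_mul]
      · exact norm_ne_zero_iff.mpr ((_root_.map_ne_zero τ).mpr hx0)
      · exact norm_ne_zero_iff.mpr ((_root_.map_ne_zero τ).mpr hd1)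
    rw [Finset.sum_congr rfl fun τ _ => h2 τ, Finset.sum_add_distrib]
    linarith

/-- **the power sums, in the mean over all embeddings** -/
theorem power_bound {w : ι → E} (hint : ∀ i, IsIntegral ℤ (w i)) (hD : 2 ≤ Fintype.card ι)
    {m : ℕ} (hm : 0 < m) (hinj : Function.Injective w)
    (hinjm : Function.Injective fun i => w i ^ m) {B : ℝ}
    (hB : finrank ℚ E * (Fintype.card ι * Real.log (Fintype.card ι)) - DL w ≤
      finrank ℚ E * (Fintype.card ι * B)) :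
    (1 - 1 / (Fintype.card ι : ℝ)) * ∑ τ : E →ₐ[ℚ] ℂ, ‖UL (fun i => τ (w i)) m‖ ^ 2 ≤
      finrank ℚ E * (Fintype.card ι * (B + 2 / 3)) +
        2 * Fintype.card ι * (m * ∑ i, lam (w i)) := by
  have hcard : Fintype.card (E →ₐ[ℚ] ℂ) = finrank ℚ E := AlgHom.card ℚ E ℂ
  set D : ℝ := (Fintype.card ι : ℝ) with hDdef
  have hD2 : (2:ℝ) ≤ D := by rw [hDdef]; exact_mod_cast hD
  set t : ℝ := 1 - 1 / D with ht
  have hinv0 : 0 < 1 / D := by positivity
  have hinvle : 1 / D ≤ 1 / 2 := one_div_le_one_div_of_le (by norm_num) hD2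
  have ht0 : 0 ≤ t := by rw [ht]; linarith
  have ht1 : t < 1 := by rw [ht]; linarith
  have hlog1 : Real.log (1 / (1 - t)) = Real.log D := by
    rw [ht, sub_sub_cancel, one_div_one_div]
  have hlog2 : Real.log (2 / (1 + t)) ≤ 2 / (3 * D) := by
    have h2t : 0 < 2 / (1 + t) := by apply div_pos <;> linarith
    refine (Real.log_le_sub_one_of_pos h2t).trans ?_
    have h1t : 3 / 2 ≤ 1 + t := by linarith
    have e : 2 / (1 + t) - 1 = (1 - t) / (1 + t) := by
      rw [div_sub_one (by linarith)]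
      congr 1
      ring
    have e2 : 1 - t = 1 / D := by rw [ht]; ring
    rw [e, e2, div_le_iff₀ (by linarith)]
    have h5 : 1 / D = 2 / (3 * D) * (3 / 2) := by field_simp
    calc 1 / D = 2 / (3 * D) * (3 / 2) := h5
      _ ≤ _ := mul_le_mul_of_nonneg_left h1t (by positivity)
  -- at one embedding
  have hone : ∀ τ : E →ₐ[ℚ] ℂ,
      (∑ i, ∑ j, (if i = j then 0 else Real.log ‖τ (w i ^ m) - τ (w j ^ m)‖)) +
        t * ‖UL (fun i => τ (w i)) m‖ ^ 2 ≤
      2 * D * (∑ i, Real.log (max 1 ‖τ (w i ^ m)‖)) + D * (2 / 3) + D * Real.log D := by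
    intro τ
    have hE := energy (Finset.univ : Finset ι) (fun _ => (1:ℝ)) (fun _ _ => zero_le_one)
      (fun i => τ (w i ^ m)) (fun i _ j _ hij h => hij (hinjm (τ.toRingHom.injective h))) ht0 ht1
    have e1 : ∑ i, ((1:ℝ):ℂ) * H388SL.refl (τ (w i ^ m)) = UL (fun i => τ (w i)) m := by
      unfold UL
      refine Finset.sum_congr rfl fun i _ => ?_
      rw [map_pow, refl_pow _ _ hm.ne', Complex.ofReal_one, one_mul]
    rw [e1] at hE
    simp only [one_mul, Finset.sum_const, Finset.card_univ, nsmul_eq_mul, mul_one, one_pow] at hE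
    rw [← hDdef, hlog1] at hE
    have h3 : D ^ 2 * Real.log (2 / (1 + t)) ≤ D * (2 / 3) := by
      calc D ^ 2 * Real.log (2 / (1 + t)) ≤ D ^ 2 * (2 / (3 * D)) :=
            mul_le_mul_of_nonneg_left hlog2 (by positivity)
        _ = D * (2 / 3) := by field_simp
    linarith
  have hsum := Finset.sum_le_sum fun (τ : E →ₐ[ℚ] ℂ) (_ : τ ∈ Finset.univ) => hone τ
  have hDL := DL_le_pow hint hinj hinjm
  have e2 : ∑ τ : E →ₐ[ℚ] ℂ, ∑ i, ∑ j,
      (if i = j then 0 else Real.log ‖τ (w i ^ m) - τ (w j ^ m)‖) = DL fun i => w i ^ m := rfl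
  have e3 : ∑ τ : E →ₐ[ℚ] ℂ, ∑ i, Real.log (max 1 ‖τ (w i ^ m)‖) = m * ∑ i, lam (w i) := by
    rw [Finset.sum_comm, Finset.mul_sum]
    refine Finset.sum_congr rfl fun i _ => ?_
    exact lam_pow (w i) m
  simp only [Finset.sum_add_distrib, Finset.sum_const, Finset.card_univ, hcard, nsmul_eq_mul,
    ← Finset.mul_sum] at hsum
  rw [e2, e3] at hsum
  linarith

/-- **sparse relations** -/
theorem sparse_rel {w : ι → E} (hint : ∀ i, IsIntegral ℤ (w i)) (h0 : ∀ i, w i ≠ 0)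
    (hinj : ∀ m : ℕ, 0 < m → Function.Injective fun i => w i ^ m) {h : ℝ} (hh : 0 ≤ h)
    (hlam : ∀ i, lam (w i) = finrank ℚ E * h) (F : E[X]) (hF0 : F ≠ 0)
    (hF : ∀ i, F.eval (w i) = 0) {B : ℝ} (hB0 : 0 ≤ B)
    (hB : finrank ℚ E * (Fintype.card ι * Real.log (Fintype.card ι)) - DL w ≤
      finrank ℚ E * (Fintype.card ι * B))
    (hk : 4 * (F.support.card : ℝ) ^ 2 * (1 + B) ≤ Fintype.card ι) :
    1 ≤ 12 * (F.support.card : ℝ) ^ 2 * (F.natDegree * h) := by
  have hN0 : (0:ℝ) < finrank ℚ E := by exact_mod_cast finrank_pos (R := ℚ) (M := E)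
  have hinj1 : Function.Injective w := by simpa using hinj 1 one_pos
  set N : ℝ := (finrank ℚ E : ℝ) with hN
  set D : ℝ := (Fintype.card ι : ℝ) with hD
  set k : ℕ := F.support.card with hkdef
  set Δ : ℝ := (F.natDegree : ℝ) with hΔ
  -- there are at least two terms
  have hk1 : 1 ≤ k := Finset.card_pos.mpr (Polynomial.support_nonempty.mpr hF0)
  have hk1' : (1:ℝ) ≤ k := by exact_mod_cast hk1
  have hD4 : (4:ℝ) ≤ D := by nlinarith [mul_nonneg (sq_nonneg (k:ℝ)) hB0, one_le_pow₀ hk1' (n := 2)]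
  have hcardpos : 0 < Fintype.card ι := by
    have : (0:ℝ) < Fintype.card ι := by rw [← hD]; linarith
    exact_mod_cast this
  obtain ⟨i0⟩ : Nonempty ι := Fintype.card_pos_iff.mp hcardpos
  have hk2 : 2 ≤ k := by
    by_contra hlt
    have h1 : F.support.card ≤ 1 := by omega
    obtain ⟨d, a, hda⟩ := Polynomial.card_support_le_one_iff_monomial.mp h1
    have h2 := hF i0
    rw [hda, Polynomial.eval_monomial] at h2
    have ha : a ≠ 0 := by
      rintro rfl
      exact hF0 (by rw [hda]; simp)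
    exact (mul_ne_zero ha (pow_ne_zero _ (h0 i0))) h2
  have hk2' : (2:ℝ) ≤ k := by exact_mod_cast hk2
  have hD16 : (16:ℝ) ≤ D := by
    have h1 : (4:ℝ) ≤ (k:ℝ) ^ 2 := by nlinarith
    nlinarith [mul_nonneg (sq_nonneg (k:ℝ)) hB0]
  have hD2n : 2 ≤ Fintype.card ι := by
    have : (2:ℝ) ≤ Fintype.card ι := by rw [← hD]; linarith
    exact_mod_cast this
  -- local inequalities
  have hloc : ∀ τ : E →ₐ[ℚ] ℂ, D ^ 2 ≤
      2 * ∑ m ∈ Finset.Icc 1 F.natDegree, (rr F.support m : ℝ) * ‖UL (fun i => τ (w i)) m‖ ^ 2 +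
      (2 * k + 2 * (k : ℝ) ^ 2) * D * (Δ * LL fun i => τ (w i)) := by
    intro τ
    have hτ : Function.Injective (τ : E →+* ℂ) := τ.toRingHom.injective
    have h1 := local_main (z := fun i => τ (w i)) (fun i => (_root_.map_ne_zero τ).mpr (h0 i))
      (F.map (τ : E →+* ℂ)) ((Polynomial.map_ne_zero_iff hτ).mpr hF0) (fun i => by
        have : (F.map (τ : E →+* ℂ)).eval ((τ : E →+* ℂ) (w i)) = (τ : E →+* ℂ) (F.eval (w i)) :=
          Polynomial.eval_map_apply (τ : E →+* ℂ) (w i)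
        rw [hF i, map_zero] at this
        exact this)
    rw [natDegree_map_eq_of_injective hτ, Polynomial.support_map_of_injective _ hτ] at h1
    exact h1
  have hsum := Finset.sum_le_sum fun (τ : E →ₐ[ℚ] ℂ) (_ : τ ∈ Finset.univ) => hloc τ
  have hcard : Fintype.card (E →ₐ[ℚ] ℂ) = finrank ℚ E := AlgHom.card ℚ E ℂ
  -- the sum of the `LL`
  have hLL : ∑ τ : E →ₐ[ℚ] ℂ, LL (fun i => τ (w i)) ≤ 2 * (D * (N * h)) := by
    unfold LL
    rw [Finset.sum_comm]
    have h1 : ∀ i ∈ (Finset.univ : Finset ι),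
        ∑ τ : E →ₐ[ℚ] ℂ, |Real.log ‖τ (w i)‖| ≤ 2 * (N * h) := fun i _ => by
      rw [← hlam i]; exact sum_abs_log_le (hint i) (h0 i)
    refine (Finset.sum_le_sum h1).trans (le_of_eq ?_)
    rw [Finset.sum_const, Finset.card_univ, nsmul_eq_mul]
    ring
  -- the power sums
  set y : ℝ := Δ * h with hy
  have hΔ0 : 0 ≤ Δ := Nat.cast_nonneg _
  have hy0 : 0 ≤ y := mul_nonneg hΔ0 hh
  have hP : ∀ m ∈ Finset.Icc 1 F.natDegree, ∑ τ : E →ₐ[ℚ] ℂ, ‖UL (fun i => τ (w i)) m‖ ^ 2 ≤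
      16 / 15 * (N * D * ((B + 2 / 3) + 2 * D * y)) := by
    intro m hm
    rw [Finset.mem_Icc] at hm
    have h1 := power_bound hint hD2n hm.1 hinj1 (hinj m hm.1) hB
    have e1 : ∑ i, lam (w i) = D * (N * h) := by
      rw [Finset.sum_congr rfl fun i _ => hlam i, Finset.sum_const, Finset.card_univ, nsmul_eq_mul]
    rw [e1, ← hD, ← hN] at h1
    set S := ∑ τ : E →ₐ[ℚ] ℂ, ‖UL (fun i => τ (w i)) m‖ ^ 2 with hS
    have hS0 : 0 ≤ S := Finset.sum_nonneg fun _ _ => sq_nonneg _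
    have h2 : (15:ℝ) / 16 ≤ 1 - 1 / D := by
      have : 1 / D ≤ 1 / 16 := one_div_le_one_div_of_le (by norm_num) hD16
      linarith
    have h3 : 15 / 16 * S ≤ (1 - 1 / D) * S := mul_le_mul_of_nonneg_right h2 hS0
    have hmΔ : (m:ℝ) ≤ Δ := by rw [hΔ]; exact_mod_cast hm.2
    have h4 : 2 * D * (m * (D * (N * h))) ≤ 2 * D * (Δ * (D * (N * h))) := by
      apply mul_le_mul_of_nonneg_left _ (by positivity)
      exact mul_le_mul_of_nonneg_right hmΔ (by positivity)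
    have e2 : 2 * D * (Δ * (D * (N * h))) = N * D * (2 * D * y) := by rw [hy]; ring
    have h5 : N * (D * (B + 2 / 3)) = N * D * (B + 2 / 3) := by ring
    rw [e2] at h4
    rw [h5] at h1
    have h6 : 15 / 16 * S ≤ N * D * ((B + 2 / 3) + 2 * D * y) := by linarith
    linarith
  have hrr : 2 * ∑ m ∈ Finset.Icc 1 F.natDegree, (rr F.support m : ℝ) ≤ (k:ℝ) ^ 2 := by
    rw [sum_rr F.support (fun e he => Polynomial.le_natDegree_of_mem_supp e he)]
    exact_mod_cast incr_card F.support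
  have hmain : ∑ τ : E →ₐ[ℚ] ℂ, ∑ m ∈ Finset.Icc 1 F.natDegree,
      (rr F.support m : ℝ) * ‖UL (fun i => τ (w i)) m‖ ^ 2 ≤
      (∑ m ∈ Finset.Icc 1 F.natDegree, (rr F.support m : ℝ)) *
        (16 / 15 * (N * D * ((B + 2 / 3) + 2 * D * y))) := by
    rw [Finset.sum_comm, Finset.sum_mul]
    refine Finset.sum_le_sum fun m hm => ?_
    rw [← Finset.mul_sum]
    exact mul_le_mul_of_nonneg_left (hP m hm) (Nat.cast_nonneg _)
  simp only [Finset.sum_add_distrib, Finset.sum_const, Finset.card_univ, hcard, nsmul_eq_mul,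
    ← Finset.mul_sum] at hsum
  rw [← hN] at hsum
  have hND : 0 < N * D := by positivity
  have hQ0 : 0 ≤ 16 / 15 * (N * D * ((B + 2 / 3) + 2 * D * y)) := by positivity
  have h1 : 2 * ((∑ m ∈ Finset.Icc 1 F.natDegree, (rr F.support m : ℝ)) *
      (16 / 15 * (N * D * ((B + 2 / 3) + 2 * D * y)))) ≤
      (k:ℝ) ^ 2 * (16 / 15 * (N * D * ((B + 2 / 3) + 2 * D * y))) := by
    rw [← mul_assoc]
    exact mul_le_mul_of_nonneg_right hrr hQ0
  have h2 : (2 * k + 2 * (k : ℝ) ^ 2) * D * (Δ * ∑ τ : E →ₐ[ℚ] ℂ, LL (fun i => τ (w i))) ≤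
      (2 * k + 2 * (k : ℝ) ^ 2) * D * (Δ * (2 * (D * (N * h)))) := by
    apply mul_le_mul_of_nonneg_left _ (by positivity)
    exact mul_le_mul_of_nonneg_left hLL hΔ0
  have e1 : (2 * k + 2 * (k : ℝ) ^ 2) * D * (Δ * (2 * (D * (N * h)))) =
      N * D * ((4 * k + 4 * (k:ℝ) ^ 2) * (D * y)) := by rw [hy]; ring
  rw [e1] at h2
  have h3 : N * D * D ≤ N * D * ((k:ℝ) ^ 2 * (16 / 15 * ((B + 2 / 3) + 2 * D * y)) +
      (4 * k + 4 * (k:ℝ) ^ 2) * (D * y)) := by
    have e2 : N * D * D = N * D ^ 2 := by ring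
    have e3 : (k:ℝ) ^ 2 * (16 / 15 * (N * D * ((B + 2 / 3) + 2 * D * y))) =
        N * D * ((k:ℝ) ^ 2 * (16 / 15 * ((B + 2 / 3) + 2 * D * y))) := by ring
    rw [e3] at h1
    rw [e2, mul_add]
    linarith
  have h4 := le_of_mul_le_mul_left h3 hND
  set κ : ℝ := (k:ℝ) ^ 2 with hκ
  have hκk : 2 * (k:ℝ) ≤ κ := by rw [hκ]; nlinarith
  have hκ0 : 0 < κ := by rw [hκ]; positivity
  have hDy : 0 ≤ D * y := by positivity
  have h5 : (4 * (k:ℝ) + 4 * κ) * (D * y) ≤ 6 * κ * (D * y) :=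
    mul_le_mul_of_nonneg_right (by linarith) hDy
  have h6 : κ * (16 / 15 * ((B + 2 / 3) + 2 * D * y)) ≤ 4 / 15 * D + 32 / 15 * κ * (D * y) := by
    have h7 : κ * (B + 2 / 3) ≤ D / 4 := by
      have e4 : κ * (B + 2 / 3) = (4 * κ * (1 + B)) / 4 - κ / 3 := by ring
      rw [e4]
      linarith
    have e5 : κ * (16 / 15 * ((B + 2 / 3) + 2 * D * y)) =
        16 / 15 * (κ * (B + 2 / 3)) + 32 / 15 * κ * (D * y) := by ring
    rw [e5]
    linarith
  have h7 : 11 / 15 * D ≤ D * (122 / 15 * κ * y) := by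
    have e6 : D * (122 / 15 * κ * y) = 32 / 15 * κ * (D * y) + 6 * κ * (D * y) := by ring
    rw [e6]
    linarith
  have h8 : 11 / 15 ≤ 122 / 15 * κ * y := by
    have : D * (11 / 15) ≤ D * (122 / 15 * κ * y) := by linarith
    exact le_of_mul_le_mul_left this (by linarith)
  have h9 : 12 * κ * y = 12 * 15 / 122 * (122 / 15 * κ * y) := by ring
  rw [h9]
  linarith

end

end Pool.Agent.X184.Rel
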