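import Mathlib
import Pool.Agent.X184.Rel.B

/-!
# Relative bounds over an arbitrary field of complex numbers
-/

set_option autoImplicit false

open Finset Polynomial Module IntermediateField Pool.Agent.H388SL Pool.Agent.X184.Leh
  Pool.Agent.Y947.DL Pool.Agent.TH860.LP

namespace Pool.Agent.X184.Rel

lemma hgt_nonneg {α : ℂ} (hα : IsIntegral ℤ α) : 0 ≤ hgt α := by
  have h1 : 0 ≤ Real.log ((minpoly ℤ α).map (Int.castRingHom ℂ)).mahlerMeasure := by
    apply Real.log_nonneg
    have h2 := Polynomial.leadingCoeff_le_mahlerMeasure ((minpoly ℤ α).map (Int.castRingHom ℂ))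
    rw [((minpoly.monic hα).map _).leadingCoeff, norm_one] at h2
    exact h2
  exact div_nonneg h1 (Nat.cast_nonneg _)

/-- the number field generated by the conjugates over `L` and a finite set of algebraic numbers -/
theorem exists_field (L : IntermediateField ℚ ℂ) {α : ℂ} (hα : IsIntegral ℤ α) (T : Finset ℂ)
    (hT : ∀ x ∈ T, IsAlgebraic ℚ x) :
    ∃ (E : IntermediateField ℚ ℂ) (_ : NumberField E), (∀ x ∈ T, x ∈ E) ∧
      ∃ w : (minpoly L α).rootSet ℂ → E, (∀ z, ((w z : E) : ℂ) = z) ∧
        (∀ z, IsIntegral ℤ (w z)) ∧ ∀ z, lam (w z) = finrank ℚ E * hgt α := by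
  classical
  set g := minpoly ℤ α with hg
  set R := (minpoly L α).rootSet ℂ with hR
  have hgm : g.Monic := minpoly.monic hα
  have hroot : ∀ z ∈ R, aeval z g = 0 := by
    intro z hz
    have h1 : minpoly L α ∣ g.map (algebraMap ℤ L) := by
      apply minpoly.dvd
      rw [aeval_map_algebraMap]
      exact minpoly.aeval ℤ α
    have h2 := (mem_rootSet.mp hz).2
    obtain ⟨A, hA⟩ := h1
    have h3 : aeval z (g.map (algebraMap ℤ L)) = 0 := by
      rw [hA, map_mul, h2, zero_mul]
    rwa [aeval_map_algebraMap] at h3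
  have hint : ∀ z ∈ g.rootSet ℂ, IsIntegral ℤ z := fun z hz =>
    ⟨g, hgm, by rw [← Polynomial.aeval_def]; exact (mem_rootSet.mp hz).2⟩
  have hzR : ∀ z ∈ R, z ∈ g.rootSet ℂ := fun z hz => mem_rootSet.mpr ⟨hgm.ne_zero, hroot z hz⟩
  set U : Set ℂ := g.rootSet ℂ ∪ (T : Set ℂ) with hU
  have hUfin : U.Finite := (rootSet_finite g ℂ).union T.finite_toSet
  have : Finite U := hUfin.to_subtype
  set E := IntermediateField.adjoin ℚ U with hE
  have hfin : FiniteDimensional ℚ E := IntermediateField.finiteDimensional_adjoin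
    fun z hz => by
      rcases hz with h | h
      · exact (hint z h).tower_top
      · exact (hT z h).isIntegral
  have hNF : NumberField E := { to_charZero := inferInstance, to_finiteDimensional := hfin }
  refine ⟨E, hNF, fun x hx => IntermediateField.subset_adjoin ℚ _ (Or.inr hx),
    fun z => ⟨z, IntermediateField.subset_adjoin ℚ _ (Or.inl (hzR z z.2))⟩, fun z => rfl, ?_, ?_⟩
  · intro z
    have h1 := hint _ (hzR _ z.2)
    exact (isIntegral_algebraMap_iff (algebraMap E ℂ).injective
      (x := (⟨z, IntermediateField.subset_adjoin ℚ _ (Or.inl (hzR z z.2))⟩ : E))).mp h1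
  · intro z
    set z' : E := ⟨z, IntermediateField.subset_adjoin ℚ _ (Or.inl (hzR z z.2))⟩ with hz'
    have hzi : IsIntegral ℤ (z : ℂ) := hint _ (hzR _ z.2)
    have hzi' : IsIntegral ℤ z' := (isIntegral_algebraMap_iff (algebraMap E ℂ).injective).mp hzi
    rw [lam_root hzi']
    have h1 : minpoly ℤ (z : ℂ) = minpoly ℤ z' :=
      minpoly.algebraMap_eq (algebraMap E ℂ).injective z'
    have h2 := minpoly.isIntegrallyClosed_dvd hzi (hroot _ z.2)
    have h3 : Associated (minpoly ℤ (z : ℂ)) g :=
      (minpoly.irreducible hzi).associated_of_dvd (minpoly.irreducible hα) h2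
    have h4 := eq_of_monic_of_associated (minpoly.monic hzi) hgm h3
    rw [← h1, h4]
    rfl

lemma card_roots (L : IntermediateField ℚ ℂ) {α : ℂ} (hα : IsIntegral ℤ α) :
    Fintype.card ((minpoly L α).rootSet ℂ) = (minpoly L α).natDegree := by
  have h1 : IsIntegral L α := hα.tower_top
  exact card_rootSet_eq_natDegree (minpoly.irreducible h1).separable (IsAlgClosed.splits _)

/-- **sparse relations over an arbitrary field** -/
theorem rel_sparse (L : IntermediateField ℚ ℂ) {α : ℂ} (hα : IsIntegral ℤ α)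
    (hnd : ∀ z ∈ (minpoly L α).rootSet ℂ, ∀ z' ∈ (minpoly L α).rootSet ℂ, z ≠ z' →
      ∀ m : ℕ, 0 < m → z ^ m ≠ z' ^ m)
    (P : L[X]) (hP0 : P ≠ 0) (hP : aeval α P = 0)
    (halg : ∀ i, IsAlgebraic ℚ ((P.coeff i : L) : ℂ))
    (hk : 4 * (P.support.card : ℝ) ^ 2 * (1 + Real.log (minpoly L α).natDegree) ≤
      (minpoly L α).natDegree) :
    1 ≤ 12 * (P.support.card : ℝ) ^ 2 * (P.natDegree * hgt α) := by
  classical
  have hαL : IsIntegral L α := hα.tower_top
  have hcard := card_roots L hα
  obtain ⟨E, hNF, hTE, w, hw, hwi, hwl⟩ := exists_field L hα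
    (P.support.image fun i => ((P.coeff i : L) : ℂ)) (by
      intro x hx
      obtain ⟨i, -, rfl⟩ := Finset.mem_image.mp hx
      exact halg i)
  -- the polynomial over `E`
  have hlift : P.map (algebraMap L ℂ) ∈ lifts (algebraMap E ℂ) := by
    rw [lifts_iff_coeff_lifts]
    intro n
    rw [coeff_map]
    by_cases hn : P.coeff n = 0
    · rw [hn, map_zero]
      exact ⟨0, map_zero _⟩
    · exact ⟨⟨((P.coeff n : L) : ℂ), hTE _ (Finset.mem_image.mpr
        ⟨n, mem_support_iff.mpr hn, rfl⟩)⟩, rfl⟩
  obtain ⟨F, hF⟩ := (mem_lifts _).mp hlift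
  have hiL : Function.Injective (algebraMap L ℂ) := (algebraMap L ℂ).injective
  have hiE : Function.Injective (algebraMap E ℂ) := (algebraMap E ℂ).injective
  have hsup : F.support = P.support := by
    rw [← Polynomial.support_map_of_injective F hiE, hF, Polynomial.support_map_of_injective P hiL]
  have hdeg : F.natDegree = P.natDegree := by
    rw [← natDegree_map_eq_of_injective hiE F, hF, natDegree_map_eq_of_injective hiL]
  have hF0 : F ≠ 0 := by
    rintro rfl
    rw [Polynomial.map_zero] at hF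
    exact hP0 ((Polynomial.map_eq_zero_iff hiL).mp hF.symm)
  have hdvd : minpoly L α ∣ P := minpoly.dvd L α hP
  have hFw : ∀ z, F.eval (w z) = 0 := by
    intro z
    apply hiE
    rw [map_zero, ← Polynomial.eval_map_apply, hF]
    have e : algebraMap E ℂ (w z) = z := hw z
    rw [e, eval_map_algebraMap]
    obtain ⟨A, hA⟩ := hdvd
    rw [hA, map_mul, (mem_rootSet.mp z.2).2, zero_mul]
  have hD1 : 1 ≤ (minpoly L α).natDegree := minpoly.natDegree_pos hαL
  have hlog : 0 ≤ Real.log (minpoly L α).natDegree := Real.log_nonneg (by exact_mod_cast hD1)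
  -- zero is not a conjugate
  have h0 : ∀ z, w z ≠ 0 := by
    intro z hz
    have hz0 : (z : ℂ) = 0 := by rw [← hw z, hz]; rfl
    have h1 : (minpoly L α).natDegree = 1 := by
      have h2 := minpoly.eq_of_irreducible_of_monic (minpoly.irreducible hαL)
        (mem_rootSet.mp z.2).2 (minpoly.monic hαL)
      rw [h2, hz0, minpoly.zero, natDegree_X]
    rw [h1, Nat.cast_one, Real.log_one, add_zero, mul_one] at hk
    have h2 : 1 ≤ P.support.card := Finset.card_pos.mpr (Polynomial.support_nonempty.mpr hP0)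
    have h3 : (1:ℝ) ≤ P.support.card := by exact_mod_cast h2
    nlinarith
  have hinj : ∀ m : ℕ, 0 < m → Function.Injective fun z => w z ^ m := by
    intro m hm z z' h
    by_contra hne
    have h1 : ((z : ℂ)) ^ m = (z' : ℂ) ^ m := by
      rw [← hw z, ← hw z']
      have := congrArg (algebraMap E ℂ) h
      rw [map_pow, map_pow] at this
      exact this
    exact hnd z z.2 z' z'.2 (fun e => hne (Subtype.ext e)) m hm h1
  have hinj1 : Function.Injective w := by simpa using hinj 1 one_pos
  have h := sparse_rel hwi h0 hinj (hgt_nonneg hα) hwl F hF0 hFw hlog (by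
    rw [hcard]
    have := DL_nonneg hwi hinj1
    linarith) (by rw [hcard, hsup]; exact hk)
  rw [hsup, hdeg] at h
  exact h

end Pool.Agent.X184.Rel
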