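import Mathlib
import Pool.Agent.X184.Rel.C

/-!
# Fields containing the roots of unity
-/

set_option autoImplicit false

open Finset Polynomial Module IntermediateField Pool.Agent.H388SL Pool.Agent.X184.Leh
  Pool.Agent.Y947.DL Pool.Agent.TH860.LP

namespace Pool.Agent.X184.Rel

lemma hgt_pow {α : ℂ} (hα : IsIntegral ℤ α) (r : ℕ) : hgt (α ^ r) = r * hgt α := by
  obtain ⟨E, hNF, -, w, hw, hwi, hwl⟩ := exists_field ⊥ hα ∅ (by simp)
  have hαL : IsIntegral (⊥ : IntermediateField ℚ ℂ) α := hα.tower_top
  set a : (minpoly (⊥ : IntermediateField ℚ ℂ) α).rootSet ℂ :=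
    ⟨α, mem_rootSet.mpr ⟨minpoly.ne_zero hαL, minpoly.aeval _ α⟩⟩ with ha
  have h1 := hwl a
  have h2 := lam_pow (w a) r
  have h3 := lam_root ((hwi a).pow r)
  have h4 : minpoly ℤ (α ^ r) = minpoly ℤ (w a ^ r) := by
    have h5 : algebraMap E ℂ (w a ^ r) = α ^ r := by
      rw [map_pow]
      have : algebraMap E ℂ (w a) = α := hw a
      rw [this]
    rw [← h5]
    exact minpoly.algebraMap_eq (algebraMap E ℂ).injective (w a ^ r)
  have hN : (0:ℝ) < finrank ℚ E := by exact_mod_cast finrank_pos (R := ℚ) (M := E)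
  have h5 : lam (w a ^ r) = finrank ℚ E * hgt (α ^ r) := by
    rw [h3, ← h4]
    rfl
  rw [h5, h1] at h2
  have h6 : (finrank ℚ E : ℝ) * hgt (α ^ r) = finrank ℚ E * (r * hgt α) := by rw [h2]; ring
  exact mul_left_cancel₀ hN.ne' h6

/-- nondegeneracy over a field with all roots of unity -/
lemma nondeg (L : IntermediateField ℚ ℂ) (hμ : ∀ ζ : ℂ, ∀ n : ℕ, 0 < n → ζ ^ n = 1 → ζ ∈ L)
    {g : L[X]} (hg : Irreducible g) (hgm : g.Monic) (h0 : g.coeff 0 ≠ 0)
    (hgcd : ∀ s : ℕ, (∀ e ∈ g.support, s ∣ e) → s = 1) {z z' : ℂ} (hz : z ∈ g.rootSet ℂ)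
    (hz' : z' ∈ g.rootSet ℂ) (hne : z ≠ z') (m : ℕ) (hm : 0 < m) : z ^ m ≠ z' ^ m := by
  intro h
  have hz'0 : z' ≠ 0 := by
    rintro rfl
    have h1 := (mem_rootSet.mp hz').2
    rw [aeval_def, eval₂_at_zero] at h1
    exact h0 ((_root_.map_eq_zero _).mp h1)
  set ζ := z / z' with hζ
  have hζz : ζ * z' = z := div_mul_cancel₀ z hz'0
  have hζm : ζ ^ m = 1 := by
    rw [hζ, div_pow, h, div_self (pow_ne_zero _ hz'0)]
  have hζ1 : ζ ≠ 1 := by
    intro e
    rw [e, one_mul] at hζz
    exact hne hζz.symm
  have hζL : ζ ∈ L := hμ ζ m hm hζm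
  set c : L := ⟨ζ, hζL⟩ with hc
  have hcm : c ^ m = 1 := Subtype.ext hζm
  have hc0 : c ≠ 0 := by
    intro e
    rw [e, zero_pow hm.ne'] at hcm
    exact zero_ne_one hcm
  have hmin : g = minpoly L z' := minpoly.eq_of_irreducible_of_monic hg (mem_rootSet.mp hz').2 hgm
  set G := g.comp (C c * X) with hG
  have hGz : aeval z' G = 0 := by
    rw [hG, aeval_comp, map_mul, aeval_C, aeval_X]
    have e : algebraMap L ℂ c = ζ := rfl
    rw [e, hζz]
    exact (mem_rootSet.mp hz).2
  have hdvd : g ∣ G := by
    rw [hmin]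
    exact minpoly.dvd L z' hGz
  have hdeg : G.natDegree = g.natDegree := by
    rw [hG, natDegree_comp, natDegree_C_mul_X c hc0, mul_one]
  have hGg := eq_leadingCoeff_mul_of_monic_of_dvd_of_natDegree_le hgm hdvd hdeg.le
  have hcoef : ∀ e, G.coeff e = g.coeff e * c ^ e := fun e => by
    rw [hG, comp_C_mul_X_coeff]
  have hcoef2 : ∀ e, g.coeff e * c ^ e = G.leadingCoeff * g.coeff e := by
    intro e
    rw [← hcoef e]
    conv_lhs => rw [hGg]
    rw [coeff_C_mul]
  have hlc : G.leadingCoeff = 1 := by
    have h1 := hcoef2 0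
    rw [pow_zero, mul_one] at h1
    have h2 : G.leadingCoeff * g.coeff 0 = 1 * g.coeff 0 := by rw [one_mul, ← h1]
    exact mul_right_cancel₀ h0 h2
  have hce : ∀ e ∈ g.support, orderOf c ∣ e := by
    intro e he
    rw [orderOf_dvd_iff_pow_eq_one]
    have h1 := hcoef2 e
    rw [hlc, one_mul] at h1
    have h2 : g.coeff e * c ^ e = g.coeff e * 1 := by rw [h1, mul_one]
    exact mul_left_cancel₀ (Polynomial.mem_support_iff.mp he) h2
  have h1 := hgcd _ hce
  rw [orderOf_eq_one_iff] at h1
  apply hζ1
  have := congrArg (algebraMap L ℂ) h1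
  rw [map_one] at this
  exact this

/-- **sparse minimal polynomials over a field containing the roots of unity** -/
theorem sparse_cyc (L : IntermediateField ℚ ℂ)
    (hμ : ∀ ζ : ℂ, ∀ n : ℕ, 0 < n → ζ ^ n = 1 → ζ ∈ L) {α : ℂ} (hα : IsIntegral ℤ α) (r d : ℕ)
    (hr : r = (minpoly L α).support.gcd id) (hd : (minpoly L α).natDegree = d * r)
    (hk : 4 * ((minpoly L α).support.card : ℝ) ^ 2 * (1 + Real.log d) ≤ d) :
    1 ≤ 12 * ((minpoly L α).support.card : ℝ) ^ 2 * ((minpoly L α).natDegree * hgt α) := by
  classical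
  have hαL : IsIntegral L α := hα.tower_top
  set f := minpoly L α with hf
  have hfm : f.Monic := minpoly.monic hαL
  have hfi : Irreducible f := minpoly.irreducible hαL
  have hf1 : 0 < f.natDegree := minpoly.natDegree_pos hαL
  have hr0 : 0 < r := Nat.pos_of_ne_zero (by rintro rfl; omega)
  have hrd : ∀ e ∈ f.support, r ∣ e := fun e he => by rw [hr]; exact Finset.gcd_dvd he
  set g := contract r f with hg
  have hexp : expand L r g = f := by
    ext n
    rw [coeff_expand hr0]
    split_ifs with h
    · rw [hg, coeff_contract hr0.ne', Nat.div_mul_cancel h]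
    · by_contra hn
      apply h (hrd n _)
      rw [Polynomial.mem_support_iff]
      intro e
      apply hn
      rw [e]
  have hgi : Irreducible g := of_irreducible_expand hr0.ne' (by rw [hexp]; exact hfi)
  have hgm : g.Monic := by
    rw [← hexp] at hfm
    exact (monic_expand_iff hr0).mp hfm
  have hgd : g.natDegree = d := by
    have h1 := natDegree_expand r g
    rw [hexp, hd] at h1
    exact (Nat.eq_of_mul_eq_mul_right hr0 h1).symm
  have hβ : aeval (α ^ r) g = 0 := by
    have h1 : aeval α (expand L r g) = 0 := by rw [hexp]; exact minpoly.aeval L α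
    rwa [expand_aeval] at h1
  have hmin : g = minpoly L (α ^ r) := minpoly.eq_of_irreducible_of_monic hgi hβ hgm
  have hsup : f.support = g.support.image fun n => n * r := by
    ext n
    rw [Finset.mem_image]
    constructor
    · intro hn
      obtain ⟨e, he⟩ := hrd n hn
      refine ⟨e, ?_, by rw [he, mul_comm]⟩
      rw [Polynomial.mem_support_iff, hg, coeff_contract hr0.ne', mul_comm, ← he]
      exact Polynomial.mem_support_iff.mp hn
    · rintro ⟨e, he, rfl⟩
      rw [Polynomial.mem_support_iff, hg, coeff_contract hr0.ne'] at he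
      exact Polynomial.mem_support_iff.mpr he
  have hcard : g.support.card = f.support.card := by
    rw [hsup, Finset.card_image_of_injective]
    intro a b h
    exact Nat.eq_of_mul_eq_mul_right hr0 h
  have hgcd : ∀ s : ℕ, (∀ e ∈ g.support, s ∣ e) → s = 1 := by
    intro s hs
    have h1 : s * r ∣ f.support.gcd id := by
      apply Finset.dvd_gcd
      intro e he
      rw [hsup] at he
      obtain ⟨e', he', rfl⟩ := Finset.mem_image.mp he
      exact Nat.mul_dvd_mul_right (hs e' he') r
    rw [← hr] at h1
    have h2 : s * r ∣ 1 * r := by rwa [one_mul]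
    exact Nat.dvd_one.mp (Nat.dvd_of_mul_dvd_mul_right hr0 h2)
  have hk1 : 1 ≤ f.support.card := Finset.card_pos.mpr
    (Polynomial.support_nonempty.mpr hfi.ne_zero)
  have hk1' : (1:ℝ) ≤ f.support.card := by exact_mod_cast hk1
  have hd1 : 1 ≤ d := Nat.pos_of_ne_zero (by rintro rfl; omega)
  have hlog : 0 ≤ Real.log d := Real.log_nonneg (by exact_mod_cast hd1)
  have hd4 : (4:ℝ) ≤ d := by
    nlinarith [mul_nonneg (sq_nonneg (f.support.card:ℝ)) hlog, one_le_pow₀ hk1' (n := 2)]
  have hg0 : g.coeff 0 ≠ 0 := by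
    intro h
    have h1 : (X : L[X]) ∣ g := X_dvd_iff.mpr h
    have h2 : Associated X g := irreducible_X.associated_of_dvd hgi h1
    have h3 : (X : L[X]) = g := eq_of_monic_of_associated monic_X hgm h2
    rw [← h3, natDegree_X] at hgd
    rw [← hgd] at hd4
    norm_num at hd4
  have h := rel_sparse L (hα.pow r) (fun z hz z' hz' hne m hm => by
      rw [← hmin] at hz hz'
      exact nondeg L hμ hgi hgm hg0 hgcd hz hz' hne m hm) g hgm.ne_zero hβ (fun i => by
      -- the coefficients are algebraic
      have hdv : minpoly L (α ^ r) ∣ (minpoly ℤ (α ^ r)).map (algebraMap ℤ L) := by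
        apply minpoly.dvd
        rw [aeval_map_algebraMap]
        exact minpoly.aeval ℤ _
      have hroots : ∀ x ∈ (g.map (algebraMap L ℂ)).roots, IsIntegral ℤ x := by
        intro x hx
        have hx1 : x ∈ (minpoly L (α ^ r)).rootSet ℂ := by
          rw [← hmin, mem_rootSet]
          refine ⟨hgm.ne_zero, ?_⟩
          have := (mem_roots'.mp hx).2
          rwa [IsRoot.def, eval_map_algebraMap] at this
        exact root_integral (hα.pow r) hx1
      have hcoef : IsIntegral ℤ ((g.map (algebraMap L ℂ)).coeff i) := by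
        have hm : (g.map (algebraMap L ℂ)).Monic := hgm.map _
        have hspl : (g.map (algebraMap L ℂ)).Splits := IsAlgClosed.splits _
        have hprod : g.map (algebraMap L ℂ) =
            ((g.map (algebraMap L ℂ)).roots.map fun a => X - C a).prod :=
          hspl.eq_prod_roots_of_monic hm
        rw [hprod]
        have key : ∀ s : Multiset ℂ, (∀ x ∈ s, IsIntegral ℤ x) → ∀ i,
            IsIntegral ℤ ((s.map fun a => X - C a).prod.coeff i) := by
          intro s
          induction s using Multiset.induction_on with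
          | empty =>
            intro _ i
            rw [Multiset.map_zero, Multiset.prod_zero, coeff_one]
            split_ifs
            · exact isIntegral_one
            · exact isIntegral_zero
          | cons a s ih =>
            intro hs i
            rw [Multiset.map_cons, Multiset.prod_cons, sub_mul, coeff_sub, coeff_C_mul]
            have ih' := ih fun x hx => hs x (Multiset.mem_cons_of_mem hx)
            apply IsIntegral.sub
            · rcases i with _ | i
              · rw [coeff_X_mul_zero]; exact isIntegral_zero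
              · rw [coeff_X_mul]; exact ih' i
            · exact (hs a (Multiset.mem_cons_self a s)).mul (ih' i)
        exact key _ hroots i
      rw [coeff_map] at hcoef
      exact (hcoef.tower_top (A := ℚ)).isAlgebraic) (by
      rw [← hmin, hgd, hcard]
      exact hk)
  rw [hcard, hgd, hgt_pow hα r] at h
  have e : (d : ℝ) * (r * hgt α) = (f.natDegree : ℝ) * hgt α := by
    rw [hd]; push_cast; ring
  rw [e] at h
  exact h

end Pool.Agent.X184.Rel
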