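import Mathlib
import Pool.Agent.X184.Rel.D

/-!
# Linear combinations of the power sums, in the mean over all embeddings
-/

set_option autoImplicit false

open Finset Polynomial Module Pool.Agent.H388SL Pool.Agent.X184.Leh Pool.Agent.Y947.DL

namespace Pool.Agent.X184.Rel

section

variable {E : Type*} [Field E] [NumberField E] {ι : Type*} [Fintype ι] [DecidableEq ι]

/-- the sum of the logarithms of the differences of two powers -/
noncomputable def CL (w : ι → E) (a b : ℕ) : ℝ :=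
  ∑ τ : E →ₐ[ℚ] ℂ, ∑ i, ∑ j, Real.log ‖τ (w i ^ a) - τ (w j ^ b)‖

omit [DecidableEq ι] in
lemma CL_nonneg {w : ι → E} (hint : ∀ i, IsIntegral ℤ (w i)) {a b : ℕ}
    (hne : ∀ i j, w i ^ a ≠ w j ^ b) : 0 ≤ CL w a b := by
  unfold CL
  rw [Finset.sum_comm]
  refine Finset.sum_nonneg fun i _ => ?_
  rw [Finset.sum_comm]
  refine Finset.sum_nonneg fun j _ => ?_
  have h1 := sum_log_nonneg (((hint i).pow a).sub ((hint j).pow b)) (sub_ne_zero.mpr (hne i j))
  simpa only [map_sub] using h1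

/-- **linear combinations of the power sums** -/
theorem linear_bound {w : ι → E} (hint : ∀ i, IsIntegral ℤ (w i)) (Q : Finset ℕ)
    (hQ : ∀ m ∈ Q, 0 < m) (hinj : Function.Injective w)
    (hinjm : ∀ m ∈ Q, Function.Injective fun i => w i ^ m)
    (hcross : ∀ a ∈ Q, ∀ b ∈ Q, a ≠ b → ∀ i j, w i ^ a ≠ w j ^ b)
    (c : ℕ → ℝ) (hc : ∀ m, 0 ≤ c m) {κ : ℝ} (hκ : 1 ≤ κ) (hD : 2 ≤ Fintype.card ι) {B : ℝ}
    (hB : finrank ℚ E * (Fintype.card ι * Real.log (Fintype.card ι)) - DL w ≤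
      finrank ℚ E * (Fintype.card ι * B)) :
    (1 - 1 / (Fintype.card ι * κ)) *
        ∑ τ : E →ₐ[ℚ] ℂ, ‖∑ m ∈ Q, (c m : ℂ) * UL (fun i => τ (w i)) m‖ ^ 2 ≤
      finrank ℚ E * (Fintype.card ι * ((B + Real.log κ) * ∑ m ∈ Q, c m ^ 2)) +
      finrank ℚ E * (Fintype.card ι * (2 / (3 * κ) * (∑ m ∈ Q, c m) ^ 2)) +
        2 * Fintype.card ι * (∑ m ∈ Q, c m) * ((∑ m ∈ Q, m * c m) * ∑ i, lam (w i)) := by
  have hcard : Fintype.card (E →ₐ[ℚ] ℂ) = finrank ℚ E := AlgHom.card ℚ E ℂ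
  set D : ℝ := (Fintype.card ι : ℝ) with hDdef
  have hD2 : (2:ℝ) ≤ D := by rw [hDdef]; exact_mod_cast hD
  have hDκ : 2 ≤ D * κ := by nlinarith
  have hκ0 : 0 < κ := by linarith
  have hD0 : 0 < D := by linarith
  set t : ℝ := 1 - 1 / (D * κ) with ht
  have hinv0 : 0 < 1 / (D * κ) := by positivity
  have hinvle : 1 / (D * κ) ≤ 1 / 2 := one_div_le_one_div_of_le (by norm_num) hDκ
  have ht0 : 0 ≤ t := by rw [ht]; linarith
  have ht1 : t < 1 := by rw [ht]; linarith
  have hlog1 : Real.log (1 / (1 - t)) = Real.log D + Real.log κ := by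
    rw [ht, sub_sub_cancel, one_div_one_div, Real.log_mul hD0.ne' hκ0.ne']
  have hlog2 : Real.log (2 / (1 + t)) ≤ 2 / (3 * (D * κ)) := by
    have h2t : 0 < 2 / (1 + t) := by apply div_pos <;> linarith
    refine (Real.log_le_sub_one_of_pos h2t).trans ?_
    have h1t : 3 / 2 ≤ 1 + t := by linarith
    have e : 2 / (1 + t) - 1 = (1 - t) / (1 + t) := by
      rw [div_sub_one (by linarith)]
      congr 1
      ring
    have e2 : 1 - t = 1 / (D * κ) := by rw [ht]; ring
    rw [e, e2, div_le_iff₀ (by linarith)]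
    have h5 : 1 / (D * κ) = 2 / (3 * (D * κ)) * (3 / 2) := by field_simp
    calc 1 / (D * κ) = 2 / (3 * (D * κ)) * (3 / 2) := h5
      _ ≤ _ := mul_le_mul_of_nonneg_left h1t (by positivity)
  set c1 : ℝ := ∑ m ∈ Q, c m with hc1
  set c2 : ℝ := ∑ m ∈ Q, c m ^ 2 with hc2
  set cm : ℝ := ∑ m ∈ Q, m * c m with hcm
  have hc10 : 0 ≤ c1 := Finset.sum_nonneg fun m _ => hc m
  have hc20 : 0 ≤ c2 := Finset.sum_nonneg fun m _ => sq_nonneg _
  -- at one embedding
  have hone : ∀ τ : E →ₐ[ℚ] ℂ,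
      (∑ m ∈ Q, ∑ l ∈ Q, (if m = l then
          c m ^ 2 * ∑ i, ∑ j, (if i = j then 0 else Real.log ‖τ (w i ^ m) - τ (w j ^ m)‖)
        else c m * c l * ∑ i, ∑ j, Real.log ‖τ (w i ^ m) - τ (w j ^ l)‖)) +
        t * ‖∑ m ∈ Q, (c m : ℂ) * UL (fun i => τ (w i)) m‖ ^ 2 ≤
      2 * (D * c1) * (cm * ∑ i, Real.log (max 1 ‖τ (w i)‖)) + D * (2 / (3 * κ) * c1 ^ 2) +
        (D * c2) * (Real.log D + Real.log κ) := by
    intro τ
    classical
    set x : ℕ × ι → ℝ := fun p => c p.1 with hx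
    set z : ℕ × ι → ℂ := fun p => τ (w p.2 ^ p.1) with hz
    set s : Finset (ℕ × ι) := Q ×ˢ Finset.univ with hs
    have hzinj : ∀ p ∈ s, ∀ q ∈ s, p ≠ q → z p ≠ z q := by
      rintro ⟨m, i⟩ hi ⟨l, j⟩ hj hij h
      rw [hs, Finset.mem_product] at hi hj
      have h' : w i ^ m = w j ^ l := τ.toRingHom.injective h
      by_cases hml : m = l
      · subst hml
        have h'' : i = j := hinjm m hi.1 h'
        exact hij (by rw [h''])
      · exact hcross m hi.1 l hj.1 hml i j h'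
    have hE := energy s x (fun p _ => hc _) z hzinj ht0 ht1
    have e1 : ∑ p ∈ s, x p = D * c1 := by
      rw [hs, Finset.sum_product, hc1, Finset.mul_sum]
      refine Finset.sum_congr rfl fun m _ => ?_
      have h : ∀ i ∈ (Finset.univ : Finset ι), x (m, i) = c m := fun i _ => rfl
      rw [Finset.sum_congr rfl h, Finset.sum_const, Finset.card_univ, nsmul_eq_mul]
    have e2 : ∑ p ∈ s, x p ^ 2 = D * c2 := by
      rw [hs, Finset.sum_product, hc2, Finset.mul_sum]
      refine Finset.sum_congr rfl fun m _ => ?_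
      have h : ∀ i ∈ (Finset.univ : Finset ι), x (m, i) ^ 2 = c m ^ 2 := fun i _ => rfl
      rw [Finset.sum_congr rfl h, Finset.sum_const, Finset.card_univ, nsmul_eq_mul]
    have e3 : ∑ p ∈ s, x p * Real.log (max 1 ‖z p‖) =
        cm * ∑ i, Real.log (max 1 ‖τ (w i)‖) := by
      rw [hs, Finset.sum_product, hcm, Finset.sum_mul]
      refine Finset.sum_congr rfl fun m _ => ?_
      rw [Finset.mul_sum]
      refine Finset.sum_congr rfl fun i _ => ?_
      rw [hx, hz]
      dsimp only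
      rw [map_pow, log_max_pow]
      ring
    have e4 : ∑ p ∈ s, (x p : ℂ) * H388SL.refl (z p) =
        ∑ m ∈ Q, (c m : ℂ) * UL (fun i => τ (w i)) m := by
      rw [hs, Finset.sum_product]
      refine Finset.sum_congr rfl fun m hm => ?_
      unfold UL
      rw [Finset.mul_sum]
      refine Finset.sum_congr rfl fun i _ => ?_
      rw [hz, hx]
      dsimp only
      rw [map_pow, refl_pow _ _ (hQ m hm).ne']
    have e5 : ∑ p ∈ s, ∑ q ∈ s, (if p = q then 0 else x p * x q * Real.log ‖z p - z q‖) =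
        ∑ m ∈ Q, ∑ l ∈ Q, (if m = l then
          c m ^ 2 * ∑ i, ∑ j, (if i = j then 0 else Real.log ‖τ (w i ^ m) - τ (w j ^ m)‖)
        else c m * c l * ∑ i, ∑ j, Real.log ‖τ (w i ^ m) - τ (w j ^ l)‖) := by
      rw [hs, Finset.sum_product]
      refine Finset.sum_congr rfl fun m _ => ?_
      have h1 : ∀ i : ι, ∑ q ∈ Q ×ˢ (Finset.univ : Finset ι),
          (if (m, i) = q then 0 else x (m, i) * x q * Real.log ‖z (m, i) - z q‖) =
          ∑ l ∈ Q, ∑ j : ι, (if (m, i) = (l, j) then 0 else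
            c m * c l * Real.log ‖τ (w i ^ m) - τ (w j ^ l)‖) := by
        intro i
        rw [Finset.sum_product]
      rw [Finset.sum_congr rfl fun i _ => h1 i, Finset.sum_comm]
      refine Finset.sum_congr rfl fun l _ => ?_
      by_cases hml : m = l
      · subst hml
        rw [if_pos rfl, Finset.mul_sum]
        refine Finset.sum_congr rfl fun i _ => ?_
        rw [Finset.mul_sum]
        refine Finset.sum_congr rfl fun j _ => ?_
        by_cases hij : i = j
        · subst hij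
          rw [if_pos rfl, if_pos rfl, mul_zero]
        · rw [if_neg (fun e => hij (Prod.ext_iff.mp e).2), if_neg hij]
          ring
      · rw [if_neg hml, Finset.mul_sum]
        refine Finset.sum_congr rfl fun i _ => ?_
        rw [Finset.mul_sum]
        refine Finset.sum_congr rfl fun j _ => ?_
        rw [if_neg (fun e => hml (Prod.ext_iff.mp e).1)]
    rw [e1, e2, e3, e4, e5, hlog1] at hE
    have h3 : (D * c1) ^ 2 * Real.log (2 / (1 + t)) ≤ D * (2 / (3 * κ) * c1 ^ 2) := by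
      calc (D * c1) ^ 2 * Real.log (2 / (1 + t)) ≤ (D * c1) ^ 2 * (2 / (3 * (D * κ))) :=
            mul_le_mul_of_nonneg_left hlog2 (by positivity)
        _ = D * (2 / (3 * κ) * c1 ^ 2) := by field_simp
    linarith
  have hsum := Finset.sum_le_sum fun (τ : E →ₐ[ℚ] ℂ) (_ : τ ∈ Finset.univ) => hone τ
  have e3 : ∑ τ : E →ₐ[ℚ] ℂ, ∑ i, Real.log (max 1 ‖τ (w i)‖) = ∑ i, lam (w i) := by
    rw [Finset.sum_comm]
    rfl
  simp only [Finset.sum_add_distrib, Finset.sum_const, Finset.card_univ, hcard, nsmul_eq_mul,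
    ← Finset.mul_sum] at hsum
  rw [e3] at hsum
  have hlow : c2 * DL w ≤ ∑ τ : E →ₐ[ℚ] ℂ, ∑ m ∈ Q, ∑ l ∈ Q, (if m = l then
      c m ^ 2 * ∑ i, ∑ j, (if i = j then 0 else Real.log ‖τ (w i ^ m) - τ (w j ^ m)‖)
        else c m * c l * ∑ i, ∑ j, Real.log ‖τ (w i ^ m) - τ (w j ^ l)‖) := by
    rw [Finset.sum_comm, hc2, Finset.sum_mul]
    refine Finset.sum_le_sum fun m hm => ?_
    rw [Finset.sum_comm, ← Finset.add_sum_erase _ _ hm]
    have h1 : c m ^ 2 * DL w ≤ ∑ τ : E →ₐ[ℚ] ℂ, (if m = m then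
        c m ^ 2 * ∑ i, ∑ j, (if i = j then 0 else Real.log ‖τ (w i ^ m) - τ (w j ^ m)‖)
        else c m * c m * ∑ i, ∑ j, Real.log ‖τ (w i ^ m) - τ (w j ^ m)‖) := by
      simp only [if_true]
      rw [← Finset.mul_sum]
      exact mul_le_mul_of_nonneg_left (DL_le_pow hint hinj (hinjm m hm)) (sq_nonneg _)
    have h2 : 0 ≤ ∑ l ∈ Q.erase m, ∑ τ : E →ₐ[ℚ] ℂ, (if m = l then
        c m ^ 2 * ∑ i, ∑ j, (if i = j then 0 else Real.log ‖τ (w i ^ m) - τ (w j ^ m)‖)
        else c m * c l * ∑ i, ∑ j, Real.log ‖τ (w i ^ m) - τ (w j ^ l)‖) := by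
      refine Finset.sum_nonneg fun l hl => ?_
      have hml : m ≠ l := (Finset.ne_of_mem_erase hl).symm
      simp only [if_neg hml]
      rw [← Finset.mul_sum]
      exact mul_nonneg (mul_nonneg (hc m) (hc l))
        (CL_nonneg hint (hcross m hm l (Finset.mem_of_mem_erase hl) hml))
    linarith
  have hfin : c2 * (finrank ℚ E * (D * Real.log D)) - c2 * DL w ≤
      c2 * (finrank ℚ E * (D * B)) := by
    rw [← mul_sub]
    exact mul_le_mul_of_nonneg_left hB hc20
  have e6 : (finrank ℚ E : ℝ) * ((D * c2) * (Real.log D + Real.log κ)) =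
      c2 * (finrank ℚ E * (D * Real.log D)) + finrank ℚ E * (D * (Real.log κ * c2)) := by ring
  have e7 : (finrank ℚ E : ℝ) * (D * ((B + Real.log κ) * c2)) =
      c2 * (finrank ℚ E * (D * B)) + finrank ℚ E * (D * (Real.log κ * c2)) := by ring
  rw [e6] at hsum
  rw [e7]
  linarith

end

end Pool.Agent.X184.Rel
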