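import Mathlib
import Pool.Agent.X184.Rel.E

/-!
# Traces of powers over an arbitrary field
-/

set_option autoImplicit false

open Finset Polynomial Module IntermediateField Pool.Agent.H388SL Pool.Agent.X184.Leh
  Pool.Agent.Y947.DL Pool.Agent.TH860.LP

namespace Pool.Agent.X184.Rel

open Pool.Agent.TH53.HR Pool.Agent.TH53.SL Pool.Agent.H389R3.LR Pool.Agent.H389R3.LP in
lemma sum_log_norm {L : Type*} [Field L] [NumberField L] {x : L} (hx : IsIntegral ℤ x)
    (h0 : x ≠ 0) : ∑ τ : L →ₐ[ℚ] ℂ, Real.log ‖τ x‖ =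
      finrank ℚ L * (Real.log |((minpoly ℤ x).coeff 0 : ℝ)| / (minpoly ℤ x).natDegree) := by
  classical
  have hzQ : IsIntegral ℚ x := hx.tower_top
  set K' := ℚ⟮x⟯ with hK'
  set γ : K' := AdjoinSimple.gen ℚ x with hγ
  have hγz : algebraMap K' L γ = x := AdjoinSimple.algebraMap_gen ℚ x
  have hγi : IsIntegral ℤ γ := by
    rw [← hγz] at hx
    exact (isIntegral_algebraMap_iff (algebraMap K' L).injective).mp hx
  have hγ0 : γ ≠ 0 := by
    rintro e
    rw [e, map_zero] at hγz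
    exact h0 hγz.symm
  have hγc : CInj γ := by
    intro σ τ h
    apply adjoin_algHom_ext ℚ (s := {x})
    intro y hy
    rw [Set.mem_singleton_iff] at hy
    subst hy
    exact h
  have hmin : minpoly ℤ γ = minpoly ℤ x := by
    rw [← hγz]
    exact (minpoly.algebraMap_eq (algebraMap K' L).injective γ).symm
  have hpmap : (minpoly ℤ x).map (Int.castRingHom ℂ) = ∏ τ : K' →ₐ[ℚ] ℂ, (X - C (τ γ)) := by
    rw [← minpoly_map_eq hγc, minpoly.isIntegrallyClosed_eq_field_fractions' ℚ hγi, hmin,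
      Polynomial.map_map]
    rfl
  have hc0 : |((minpoly ℤ x).coeff 0 : ℝ)| = ∏ τ : K' →ₐ[ℚ] ℂ, ‖τ γ‖ := by
    have h1 : ((minpoly ℤ x).map (Int.castRingHom ℂ)).coeff 0 = ∏ τ : K' →ₐ[ℚ] ℂ, (-(τ γ)) := by
      rw [hpmap, coeff_zero_eq_eval_zero, eval_prod]
      refine Finset.prod_congr rfl fun τ _ => ?_
      simp
    rw [coeff_map] at h1
    have h2 := congrArg norm h1
    rw [norm_prod, eq_intCast, Complex.norm_intCast] at h2
    simpa using h2
  have hpos : ∀ u : K' →ₐ[ℚ] ℂ, ‖u γ‖ ≠ 0 := fun u =>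
    norm_ne_zero_iff.mpr ((_root_.map_ne_zero u).mpr hγ0)
  have hlam : ∑ τ : L →ₐ[ℚ] ℂ, Real.log ‖τ x‖ =
      finrank K' L * ∑ u : K' →ₐ[ℚ] ℂ, Real.log ‖u γ‖ := by
    have h1 := prod_emb x (fun z => ‖z‖)
    have h2 := congrArg Real.log h1
    rw [Real.log_prod (fun σ _ => norm_ne_zero_iff.mpr ((_root_.map_ne_zero σ).mpr h0)),
      Real.log_pow, Real.log_prod (fun σ _ => hpos _)] at h2
    exact h2
  have hfr : finrank ℚ K' = (minpoly ℤ x).natDegree := by
    rw [hK', adjoin.finrank hzQ, minpoly.isIntegrallyClosed_eq_field_fractions' ℚ hx]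
    exact natDegree_map_eq_of_injective (algebraMap ℤ ℚ).injective_int _
  have hdeg : finrank ℚ K' * finrank K' L = finrank ℚ L := finrank_mul_finrank ℚ K' L
  have hx0 : (0 : ℝ) < (minpoly ℤ x).natDegree := by
    exact_mod_cast minpoly.natDegree_pos hx
  rw [hlam, hc0, Real.log_prod (fun σ _ => hpos _), ← hdeg, hfr]
  push_cast
  field_simp

lemma sub_inv_sum {ι : Type*} (s : Finset ι) (a : ι → ℝ) (ha : ∀ i ∈ s, 1 ≤ a i) :
    1 ≤ ∏ i ∈ s, a i ∧ ∑ i ∈ s, (a i - 1 / a i) ≤ ∏ i ∈ s, a i - 1 / ∏ i ∈ s, a i := by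
  classical
  induction s using Finset.induction_on with
  | empty => simp
  | insert j s hj ih =>
    obtain ⟨h1, h2⟩ := ih fun i hi => ha i (Finset.mem_insert_of_mem hi)
    have hj1 := ha j (Finset.mem_insert_self j s)
    rw [Finset.prod_insert hj, Finset.sum_insert hj]
    set P := ∏ i ∈ s, a i with hP
    refine ⟨by nlinarith, ?_⟩
    have hP0 : 0 < P := by linarith
    have hj0 : 0 < a j := by linarith
    have e : a j * P - 1 / (a j * P) - ((a j - 1 / a j) + (P - 1 / P)) =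
        (a j - 1) * (P - 1) * (1 - 1 / (a j * P)) := by
      field_simp
      ring
    have h3 : 0 ≤ (a j - 1) * (P - 1) * (1 - 1 / (a j * P)) := by
      apply mul_nonneg (mul_nonneg (by linarith) (by linarith))
      have h4 : 1 ≤ a j * P := by nlinarith
      have h5 : 1 / (a j * P) ≤ 1 := by
        rw [div_le_one (by linarith)]; exact h4
      linarith
    linarith

lemma refl_diff (z : ℂ) (m : ℕ) :
    ‖z ^ m - H388SL.refl z ^ m‖ ≤ (max 1 ‖z‖) ^ m - 1 / (max 1 ‖z‖) ^ m := by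
  unfold H388SL.refl
  split_ifs with h
  · rw [sub_self, norm_zero, max_eq_left h, one_pow]
    norm_num
  · push Not at h
    have hz0 : 0 < ‖z‖ := by linarith
    have hz : z ≠ 0 := norm_pos_iff.mp hz0
    have hzb : starRingEnd ℂ z ≠ 0 := by simpa using hz
    rw [max_eq_right h.le]
    have h1 : z * starRingEnd ℂ z = ((‖z‖ ^ 2 : ℝ) : ℂ) := by
      rw [Complex.mul_conj, Complex.normSq_eq_norm_sq]
    have h2 : (starRingEnd ℂ z)⁻¹ ^ m = z ^ m * (((1 / ‖z‖ ^ (2 * m) : ℝ)) : ℂ) := by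
      have h3 : (starRingEnd ℂ z)⁻¹ = z * (((1 / ‖z‖ ^ 2 : ℝ)) : ℂ) := by
        rw [inv_eq_iff_eq_inv, mul_inv]
        push_cast
        rw [one_div, inv_inv]
        have h4 : ((‖z‖ : ℂ)) ^ 2 = z * starRingEnd ℂ z := by rw [h1]; push_cast; ring
        rw [h4]
        field_simp
      rw [h3, mul_pow]
      congr 1
      push_cast
      rw [div_pow, one_pow, ← pow_mul]
    have e : z ^ m - (starRingEnd ℂ z)⁻¹ ^ m = z ^ m * (((1 - 1 / ‖z‖ ^ (2 * m) : ℝ)) : ℂ) := by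
      rw [h2]; push_cast; ring
    have h5 : 1 / ‖z‖ ^ (2 * m) ≤ 1 := by
      rw [div_le_one (by positivity)]
      exact one_le_pow₀ h.le
    rw [e, norm_mul, norm_pow, Complex.norm_real, Real.norm_of_nonneg (by linarith)]
    apply le_of_eq
    rw [mul_comm 2 m, pow_mul]
    field_simp

/-- the local inequality for linear combinations of power sums -/
lemma local_T {ι : Type*} [Fintype ι] (z : ι → ℂ) (c : ℕ → ℝ) (hc : ∀ m, 0 ≤ c m) (k : ℕ) :
    ‖∑ m ∈ Finset.Icc 1 k, (c m : ℂ) * ∑ i, z i ^ m‖ ≤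
      (‖∑ m ∈ Finset.Icc 1 k, (c m : ℂ) * UL z m‖ + ∑ m ∈ Finset.Icc 1 k, c m) *
        (∏ i, max 1 ‖z i‖) ^ k := by
  set M : ℝ := ∏ i, max 1 ‖z i‖ with hM
  have hM1 : 1 ≤ M := (sub_inv_sum Finset.univ (fun i => max 1 ‖z i‖) fun i _ => le_max_left _ _).1
  have hMk : 1 ≤ M ^ k := one_le_pow₀ hM1
  have h1 : ∀ m ∈ Finset.Icc 1 k, ‖∑ i, z i ^ m - UL z m‖ ≤ M ^ k := by
    intro m hm
    rw [Finset.mem_Icc] at hm
    unfold UL
    rw [← Finset.sum_sub_distrib]
    refine (norm_sum_le _ _).trans ((Finset.sum_le_sum fun i _ => refl_diff (z i) m).trans ?_)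
    have h2 := (sub_inv_sum Finset.univ (fun i => (max 1 ‖z i‖) ^ m)
      fun i _ => one_le_pow₀ (le_max_left _ _))
    refine h2.2.trans ?_
    rw [Finset.prod_pow, ← hM]
    have h3 : 0 < 1 / M ^ m := by positivity
    have h4 : M ^ m ≤ M ^ k := pow_le_pow_right₀ hM1 hm.2
    linarith
  have e : ∑ m ∈ Finset.Icc 1 k, (c m : ℂ) * ∑ i, z i ^ m =
      ∑ m ∈ Finset.Icc 1 k, (c m : ℂ) * UL z m +
        ∑ m ∈ Finset.Icc 1 k, (c m : ℂ) * (∑ i, z i ^ m - UL z m) := by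
    rw [← Finset.sum_add_distrib]
    refine Finset.sum_congr rfl fun m _ => ?_
    ring
  rw [e]
  refine (norm_add_le _ _).trans ?_
  have h2 : ‖∑ m ∈ Finset.Icc 1 k, (c m : ℂ) * (∑ i, z i ^ m - UL z m)‖ ≤
      (∑ m ∈ Finset.Icc 1 k, c m) * M ^ k := by
    refine (norm_sum_le _ _).trans ?_
    rw [Finset.sum_mul]
    refine Finset.sum_le_sum fun m hm => ?_
    rw [norm_mul, Complex.norm_real, Real.norm_of_nonneg (hc m)]
    exact mul_le_mul_of_nonneg_left (h1 m hm) (hc m)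
  have h3 : ‖∑ m ∈ Finset.Icc 1 k, (c m : ℂ) * UL z m‖ ≤
      ‖∑ m ∈ Finset.Icc 1 k, (c m : ℂ) * UL z m‖ * M ^ k :=
    le_mul_of_one_le_right (norm_nonneg _) hMk
  rw [add_mul]
  linarith

end Pool.Agent.X184.Rel
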