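import Mathlib
import Pool.Agent.X184.Rel.F

/-!
# Large traces of powers over an arbitrary field
-/

set_option autoImplicit false

open Finset Polynomial Module IntermediateField Pool.Agent.H388SL Pool.Agent.X184.Leh
  Pool.Agent.Y947.DL Pool.Agent.TH860.LP

namespace Pool.Agent.X184.Rel

section

variable {E : Type*} [Field E] [NumberField E] {ι : Type*} [Fintype ι] [DecidableEq ι]

/-- **large traces, in a number field** -/
theorem trace_rel {w : ι → E} (hint : ∀ i, IsIntegral ℤ (w i)) (hD : 2 ≤ Fintype.card ι)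
    (hinj : ∀ m : ℕ, 0 < m → Function.Injective fun i => w i ^ m)
    (hcross : ∀ a b : ℕ, 0 < a → 0 < b → a ≠ b → ∀ i j, w i ^ a ≠ w j ^ b)
    {h : ℝ} (hh : 0 ≤ h) (hlam : ∀ i, lam (w i) = finrank ℚ E * h) (c : ℕ → ℝ)
    (hc : ∀ m, 0 ≤ c m) {k : ℕ} (hk : 1 ≤ k) (hc2 : 0 < ∑ m ∈ Finset.Icc 1 k, c m ^ 2)
    {B : ℝ} (hB0 : 0 ≤ B)
    (hB : finrank ℚ E * (Fintype.card ι * Real.log (Fintype.card ι)) - DL w ≤
      finrank ℚ E * (Fintype.card ι * B))
    (hsmall : (k:ℝ) ^ 2 * (Fintype.card ι * h) ≤ 1 / 8) (T : E)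
    (hT : ∀ τ : E →ₐ[ℚ] ℂ, τ T = ∑ m ∈ Finset.Icc 1 k, (c m : ℂ) * ∑ i, τ (w i) ^ m)
    (hT0 : T ≠ 0) :
    2 * ∑ τ : E →ₐ[ℚ] ℂ, Real.log ‖τ T‖ < finrank ℚ E *
      Real.log ((∑ m ∈ Finset.Icc 1 k, c m ^ 2) *
        (6 * Fintype.card ι * (1 + B + Real.log k) + 3 * k)) := by
  have hcard : Fintype.card (E →ₐ[ℚ] ℂ) = finrank ℚ E := AlgHom.card ℚ E ℂ
  have hN0 : (0:ℝ) < finrank ℚ E := by exact_mod_cast finrank_pos (R := ℚ) (M := E)
  have hinj1 : Function.Injective w := by simpa using hinj 1 one_pos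
  have hk1 : (1:ℝ) ≤ k := by exact_mod_cast hk
  have hlk : 0 ≤ Real.log k := Real.log_nonneg hk1
  have hL := linear_bound hint (Finset.Icc 1 k) (fun m hm => (Finset.mem_Icc.mp hm).1) hinj1
    (fun m hm => hinj m (Finset.mem_Icc.mp hm).1)
    (fun a ha b hb hab => hcross a b (Finset.mem_Icc.mp ha).1 (Finset.mem_Icc.mp hb).1 hab)
    c hc hk1 hD hB
  set N : ℝ := (finrank ℚ E : ℝ) with hN
  set D : ℝ := (Fintype.card ι : ℝ) with hDdef
  have hD2 : (2:ℝ) ≤ D := by rw [hDdef]; exact_mod_cast hD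
  set C1 := ∑ m ∈ Finset.Icc 1 k, c m with hC1
  set C2 := ∑ m ∈ Finset.Icc 1 k, c m ^ 2 with hC2
  have hC10 : 0 < C1 := by
    rcases (Finset.sum_nonneg fun m _ => hc m : 0 ≤ C1).eq_or_lt with e | e
    · exfalso
      have h1 : ∀ m ∈ Finset.Icc 1 k, c m = 0 :=
        (Finset.sum_eq_zero_iff_of_nonneg fun m _ => hc m).mp e.symm
      have h2 : C2 = 0 := Finset.sum_eq_zero fun m hm => by rw [h1 m hm]; norm_num
      linarith
    · exact e
  have hC12 : C1 ^ 2 ≤ k * C2 := by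
    have h1 := sq_sum_le_card_mul_sum_sq (s := Finset.Icc 1 k) (f := c)
    rw [Nat.card_Icc, Nat.add_sub_cancel] at h1
    exact h1
  have hcm : ∑ m ∈ Finset.Icc 1 k, (m:ℝ) * c m ≤ k * C1 := by
    rw [hC1, Finset.mul_sum]
    refine Finset.sum_le_sum fun m hm => ?_
    apply mul_le_mul_of_nonneg_right _ (hc m)
    exact_mod_cast (Finset.mem_Icc.mp hm).2
  have hlamsum : ∑ i, lam (w i) = D * (N * h) := by
    rw [Finset.sum_congr rfl fun i _ => hlam i, Finset.sum_const, Finset.card_univ, nsmul_eq_mul]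
  rw [hlamsum] at hL
  set S := ∑ τ : E →ₐ[ℚ] ℂ, ‖∑ m ∈ Finset.Icc 1 k, (c m : ℂ) * UL (fun i => τ (w i)) m‖ ^ 2
    with hS
  have hS0 : 0 ≤ S := Finset.sum_nonneg fun _ _ => sq_nonneg _
  have hSb : S ≤ 2 * (N * D * C2 * (B + Real.log k + 11 / 12)) := by
    have h1 : (1:ℝ) / 2 ≤ 1 - 1 / (D * k) := by
      have : 1 / (D * k) ≤ 1 / 2 := by
        apply one_div_le_one_div_of_le (by norm_num)
        nlinarith
      linarith
    have h2 : 1 / 2 * S ≤ (1 - 1 / (D * k)) * S := mul_le_mul_of_nonneg_right h1 hS0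
    have h3 : N * (D * (2 / (3 * k) * C1 ^ 2)) ≤ N * D * C2 * (2 / 3) := by
      have h4 : 2 / (3 * (k:ℝ)) * C1 ^ 2 ≤ 2 / (3 * (k:ℝ)) * (k * C2) :=
        mul_le_mul_of_nonneg_left hC12 (by positivity)
      have e : 2 / (3 * (k:ℝ)) * (k * C2) = 2 / 3 * C2 := by field_simp
      rw [e] at h4
      have h5 := mul_le_mul_of_nonneg_left h4 (by positivity : 0 ≤ N * D)
      calc N * (D * (2 / (3 * k) * C1 ^ 2)) = N * D * (2 / (3 * k) * C1 ^ 2) := by ring
        _ ≤ _ := h5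
        _ = _ := by ring
    have h6 : 2 * D * C1 * ((∑ m ∈ Finset.Icc 1 k, (m:ℝ) * c m) * (D * (N * h))) ≤
        N * D * C2 * (1 / 4) := by
      have h7 : C1 * (∑ m ∈ Finset.Icc 1 k, (m:ℝ) * c m) ≤ k * (k * C2) := by
        calc C1 * (∑ m ∈ Finset.Icc 1 k, (m:ℝ) * c m) ≤ C1 * (k * C1) :=
              mul_le_mul_of_nonneg_left hcm hC10.le
          _ = k * C1 ^ 2 := by ring
          _ ≤ k * (k * C2) := mul_le_mul_of_nonneg_left hC12 (by positivity)
      have h8 : 0 ≤ 2 * D * (D * (N * h)) := by positivity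
      have h9 := mul_le_mul_of_nonneg_left h7 h8
      have h10 : 0 ≤ 2 * (N * D * C2) := by positivity
      have h11 := mul_le_mul_of_nonneg_left hsmall h10
      calc 2 * D * C1 * ((∑ m ∈ Finset.Icc 1 k, (m:ℝ) * c m) * (D * (N * h))) =
            2 * D * (D * (N * h)) * (C1 * (∑ m ∈ Finset.Icc 1 k, (m:ℝ) * c m)) := by ring
        _ ≤ _ := h9
        _ = 2 * (N * D * C2) * ((k:ℝ) ^ 2 * (D * h)) := by ring
        _ ≤ _ := h11
        _ = _ := by ring
    have e : N * (D * ((B + Real.log k) * C2)) = N * D * C2 * (B + Real.log k) := by ring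
    rw [e] at hL
    linarith
  set Z : ℝ := 1 + B + Real.log k with hZ
  have hZ0 : 0 < Z := by rw [hZ]; linarith
  set Y : ℝ := C2 * (6 * D * Z + 3 * k) with hY
  have hY0 : 0 < Y := by positivity
  set y0 : ℝ := 2 / 3 * Y with hy0
  have hy00 : 0 < y0 := by positivity
  set s : (E →ₐ[ℚ] ℂ) → ℝ := fun τ =>
    (‖∑ m ∈ Finset.Icc 1 k, (c m : ℂ) * UL (fun i => τ (w i)) m‖ + C1) ^ 2 with hs
  have hspos : ∀ τ, 0 < s τ := fun τ => by
    rw [hs]
    have := norm_nonneg (∑ m ∈ Finset.Icc 1 k, (c m : ℂ) * UL (fun i => τ (w i)) m)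
    positivity
  have hssum : ∑ τ, s τ ≤ N * y0 := by
    have h1 : ∀ τ ∈ (Finset.univ : Finset (E →ₐ[ℚ] ℂ)), s τ ≤
        2 * ‖∑ m ∈ Finset.Icc 1 k, (c m : ℂ) * UL (fun i => τ (w i)) m‖ ^ 2 + 2 * C1 ^ 2 := by
      intro τ _
      rw [hs]
      dsimp only
      generalize ‖∑ m ∈ Finset.Icc 1 k, (c m : ℂ) * UL (fun i => τ (w i)) m‖ = x
      have e : (x + C1) ^ 2 = 2 * x ^ 2 + 2 * C1 ^ 2 - (x - C1) ^ 2 := by ring
      rw [e]
      linarith [sq_nonneg (x - C1)]
    refine (Finset.sum_le_sum h1).trans ?_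
    rw [Finset.sum_add_distrib, ← Finset.mul_sum, Finset.sum_const, Finset.card_univ, hcard,
      nsmul_eq_mul, ← hN, ← hS]
    have e : N * y0 = 2 * (2 * (N * D * C2 * Z)) + N * (2 * (k * C2)) := by
      rw [hy0, hY]; ring
    rw [e]
    have h2 : N * D * C2 * (B + Real.log k + 11 / 12) ≤ N * D * C2 * Z :=
      mul_le_mul_of_nonneg_left (by rw [hZ]; linarith) (by positivity)
    have h3 : N * (2 * C1 ^ 2) ≤ N * (2 * (k * C2)) :=
      mul_le_mul_of_nonneg_left (by linarith) hN0.le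
    linarith
  have hone : ∀ τ : E →ₐ[ℚ] ℂ, 2 * Real.log ‖τ T‖ ≤
      Real.log y0 + (s τ / y0 - 1) + 2 * (k * ∑ i, Real.log (max 1 ‖τ (w i)‖)) := by
    intro τ
    have h1 := local_T (fun i => τ (w i)) c hc k
    rw [← hT τ, ← hC1] at h1
    have hTn : 0 < ‖τ T‖ := norm_pos_iff.mpr ((_root_.map_ne_zero τ).mpr hT0)
    have hXp : 0 < ‖∑ m ∈ Finset.Icc 1 k, (c m : ℂ) * UL (fun i => τ (w i)) m‖ + C1 := by
      have := norm_nonneg (∑ m ∈ Finset.Icc 1 k, (c m : ℂ) * UL (fun i => τ (w i)) m)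
      linarith
    have hmax : ∀ i ∈ (Finset.univ : Finset ι), (max 1 ‖τ (w i)‖ : ℝ) ≠ 0 := fun i _ =>
      (lt_of_lt_of_le one_pos (le_max_left _ _)).ne'
    have hMp : 0 < ∏ i, max 1 ‖τ (w i)‖ := Finset.prod_pos fun i _ =>
      lt_of_lt_of_le one_pos (le_max_left _ _)
    have h2 := Real.log_le_log hTn h1
    rw [Real.log_mul hXp.ne' (pow_pos hMp k).ne', Real.log_pow, Real.log_prod hmax] at h2
    have h3 : 2 * Real.log (‖∑ m ∈ Finset.Icc 1 k, (c m : ℂ) * UL (fun i => τ (w i)) m‖ + C1) =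
        Real.log (s τ) := by
      rw [hs]
      dsimp only
      rw [Real.log_pow]
      norm_num
    have h4 := Real.log_le_sub_one_of_pos (div_pos (hspos τ) hy00)
    rw [Real.log_div (hspos τ).ne' hy00.ne'] at h4
    linarith
  have hsum := Finset.sum_le_sum fun (τ : E →ₐ[ℚ] ℂ) (_ : τ ∈ Finset.univ) => hone τ
  rw [← Finset.mul_sum, Finset.sum_add_distrib, Finset.sum_add_distrib, Finset.sum_sub_distrib,
    ← Finset.sum_div, ← Finset.mul_sum, ← Finset.mul_sum, Finset.sum_comm, Finset.sum_const,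
    Finset.sum_const, Finset.card_univ, hcard, nsmul_eq_mul, nsmul_eq_mul, mul_one, ← hN] at hsum
  have e3 : ∑ i, ∑ τ : E →ₐ[ℚ] ℂ, Real.log (max 1 ‖τ (w i)‖) = D * (N * h) := hlamsum
  rw [e3] at hsum
  have h1 : (∑ τ, s τ) / y0 ≤ N := by
    rw [div_le_iff₀ hy00]; exact hssum
  have h2 : 2 * (k * (D * (N * h))) ≤ N * (1 / 4) := by
    have h3 : (k:ℝ) * (D * h) ≤ k ^ 2 * (D * h) := by
      apply mul_le_mul_of_nonneg_right _ (by positivity)
      nlinarith
    have h4 : 2 * ((k:ℝ) * (D * h)) ≤ 1 / 4 := by linarith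
    calc 2 * (k * (D * (N * h))) = N * (2 * ((k:ℝ) * (D * h))) := by ring
      _ ≤ _ := mul_le_mul_of_nonneg_left h4 hN0.le
  have h3 : Real.log y0 = Real.log (2 / 3) + Real.log Y := by
    rw [hy0, Real.log_mul (by norm_num) hY0.ne']
  have h4 : Real.log (2 / 3) ≤ - (1 / 3) := by
    have := Real.log_le_sub_one_of_pos (show (0:ℝ) < 2 / 3 by norm_num)
    linarith
  have h5 : N * Real.log y0 ≤ N * (Real.log Y - 1 / 3) :=
    mul_le_mul_of_nonneg_left (by linarith) hN0.le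
  nlinarith

end

/-- **large traces over an arbitrary field** -/
theorem rel_trace (F : IntermediateField ℚ ℂ) {α : ℂ} (hα : IsIntegral ℤ α)
    (hroot : ∀ n : ℕ, 0 < n → α ^ n ≠ 1)
    (hnd : ∀ z ∈ (minpoly F α).rootSet ℂ, ∀ z' ∈ (minpoly F α).rootSet ℂ, z ≠ z' →
      ∀ m : ℕ, 0 < m → z ^ m ≠ z' ^ m) (hD : 2 ≤ (minpoly F α).natDegree) {k : ℕ} (hk : 1 ≤ k)
    (c : ℕ → ℕ) (T : ℂ)
    (hT : T = ∑ m ∈ Finset.Icc 1 k, (c m : ℂ) * ∑ z : (minpoly F α).rootSet ℂ, (z : ℂ) ^ m)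
    (hT0 : T ≠ 0)
    (hbig : Real.log ((∑ m ∈ Finset.Icc 1 k, (c m : ℝ) ^ 2) *
        (6 * (minpoly F α).natDegree * (1 + Real.log (minpoly F α).natDegree + Real.log k) +
          3 * k)) ≤
      2 * (Real.log |((minpoly ℤ T).coeff 0 : ℝ)| / (minpoly ℤ T).natDegree)) :
    1 < 8 * (k:ℝ) ^ 2 * ((minpoly F α).natDegree * hgt α) := by
  classical
  by_contra hcon
  push Not at hcon
  have hαF : IsIntegral F α := hα.tower_top
  have hcard := card_roots F hα
  obtain ⟨E, hNF, -, w, hw, hwi, hwl⟩ := exists_field F hα ∅ (by simp)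
  have hiE : Function.Injective (algebraMap E ℂ) := (algebraMap E ℂ).injective
  have hN0 : (0:ℝ) < finrank ℚ E := by exact_mod_cast finrank_pos (R := ℚ) (M := E)
  have hinj : ∀ m : ℕ, 0 < m → Function.Injective fun z => w z ^ m := by
    intro m hm z z' h
    by_contra hne
    have h1 : ((z : ℂ)) ^ m = (z' : ℂ) ^ m := by
      rw [← hw z, ← hw z']
      have := congrArg (algebraMap E ℂ) h
      rw [map_pow, map_pow] at this
      exact this
    exact hnd z z.2 z' z'.2 (fun e => hne (Subtype.ext e)) m hm h1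
  have hinj1 : Function.Injective w := by simpa using hinj 1 one_pos
  set a0 : (minpoly F α).rootSet ℂ :=
    ⟨α, mem_rootSet.mpr ⟨minpoly.ne_zero hαF, minpoly.aeval _ α⟩⟩ with ha0
  have hα0 : α ≠ 0 := by
    rintro rfl
    rw [minpoly.zero, natDegree_X] at hD
    omega
  -- the height is positive
  have hpos : 0 < hgt α := by
    rcases (hgt_nonneg hα).eq_or_lt with e | e
    · exfalso
      have h1 := hwl a0
      rw [← e, mul_zero] at h1
      have h2 : ∀ τ : E →ₐ[ℚ] ℂ, ‖τ (w a0)‖ ≤ 1 := by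
        intro τ
        unfold lam at h1
        have h3 := (Finset.sum_eq_zero_iff_of_nonneg fun (σ : E →ₐ[ℚ] ℂ) _ =>
          Real.log_nonneg (le_max_left 1 ‖σ (w a0)‖)).mp h1 τ (Finset.mem_univ τ)
        have h4 : max 1 ‖τ (w a0)‖ ≤ 1 := by
          by_contra h5
          push Not at h5
          exact (Real.log_pos h5).ne' h3
        exact (le_max_right _ _).trans h4
      have hw0 : w a0 ≠ 0 := by
        intro e2
        apply hα0
        have h3 := hw a0
        rw [e2] at h3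
        exact h3.symm
      obtain ⟨n, hn, hn1⟩ := NumberField.Embeddings.pow_eq_one_of_norm_le_one E ℂ hw0 (hwi a0)
        (fun φ => h2 { φ with commutes' := fun r => by simp })
      apply hroot n hn
      have h3 := congrArg (algebraMap E ℂ) hn1
      have h4 : algebraMap E ℂ (w a0) = α := hw a0
      rw [map_pow, map_one, h4] at h3
      exact h3
    · exact e
  have hcross : ∀ a b : ℕ, 0 < a → 0 < b → a ≠ b → ∀ i j, w i ^ a ≠ w j ^ b := by
    intro a b _ _ hab i j h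
    have h1 := congrArg lam h
    rw [lam_pow, lam_pow, hwl, hwl] at h1
    have h2 : 0 < finrank ℚ E * hgt α := mul_pos hN0 hpos
    exact hab (by exact_mod_cast mul_right_cancel₀ h2.ne' h1)
  set TE : E := ∑ m ∈ Finset.Icc 1 k, (c m : E) * ∑ z, w z ^ m with hTE
  have hTET : algebraMap E ℂ TE = T := by
    rw [hTE, hT, map_sum]
    refine Finset.sum_congr rfl fun m _ => ?_
    rw [map_mul, map_natCast, map_sum]
    congr 1
    refine Finset.sum_congr rfl fun z _ => ?_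
    rw [map_pow]
    congr 1
    exact hw z
  have hTE0 : TE ≠ 0 := by
    rintro e
    rw [e, map_zero] at hTET
    exact hT0 hTET.symm
  have hTEi : IsIntegral ℤ TE := by
    rw [hTE]
    refine IsIntegral.sum _ fun m _ => ?_
    refine IsIntegral.mul ?_ (IsIntegral.sum _ fun z _ => (hwi z).pow m)
    have := isIntegral_algebraMap (R := ℤ) (A := E) (x := (c m : ℤ))
    simpa using this
  have hmin : minpoly ℤ TE = minpoly ℤ T := by
    rw [← hTET]
    exact (minpoly.algebraMap_eq hiE TE).symm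
  -- some coefficient is positive
  have hc2 : 0 < ∑ m ∈ Finset.Icc 1 k, (c m : ℝ) ^ 2 := by
    rcases (Finset.sum_nonneg fun m _ => sq_nonneg (c m : ℝ) :
      0 ≤ ∑ m ∈ Finset.Icc 1 k, (c m : ℝ) ^ 2).eq_or_lt with e | e
    · exfalso
      apply hT0
      rw [hT]
      refine Finset.sum_eq_zero fun m hm => ?_
      have h1 := (Finset.sum_eq_zero_iff_of_nonneg fun m _ => sq_nonneg (c m : ℝ)).mp e.symm m hm
      have h2 : (c m : ℝ) = 0 := by simpa using h1
      have h3 : c m = 0 := by exact_mod_cast h2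
      rw [h3, Nat.cast_zero, zero_mul]
    · exact e
  have hlog : 0 ≤ Real.log (minpoly F α).natDegree :=
    Real.log_nonneg (by exact_mod_cast (by omega : 1 ≤ (minpoly F α).natDegree))
  have h := trace_rel hwi (by rw [hcard]; exact hD) hinj hcross hpos.le hwl
    (fun m => (c m : ℝ)) (fun m => Nat.cast_nonneg _) hk hc2 hlog (by
      rw [hcard]
      have := DL_nonneg hwi hinj1
      linarith) (by rw [hcard]; linarith) TE (fun τ => by
      rw [hTE, map_sum]
      refine Finset.sum_congr rfl fun m _ => ?_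
      rw [map_mul, map_natCast, map_sum]
      congr 1
      refine Finset.sum_congr rfl fun z _ => ?_
      rw [map_pow]) hTE0
  rw [sum_log_norm hTEi hTE0, hmin, hcard] at h
  have h2 := mul_le_mul_of_nonneg_left hbig hN0.le
  linarith

end Pool.Agent.X184.Rel
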