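import Mathlib
import Pool.Agent.X184.Rel.G

/-!
# Powers of a nondegenerate number
-/

set_option autoImplicit false

open Finset Polynomial Module IntermediateField Pool.Agent.TH860.LP

namespace Pool.Agent.X184.Rel

/-- the conjugates of a power of a nondegenerate number -/
theorem pow_conj (F : IntermediateField ℚ ℂ) {α : ℂ} (hα : IsIntegral ℤ α)
    (hnd : ∀ z ∈ (minpoly F α).rootSet ℂ, ∀ z' ∈ (minpoly F α).rootSet ℂ, z ≠ z' →
      ∀ m : ℕ, 0 < m → z ^ m ≠ z' ^ m) {m : ℕ} (hm : 0 < m) :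
    (minpoly F (α ^ m)).natDegree = (minpoly F α).natDegree ∧
      (minpoly F (α ^ m)).rootSet ℂ = (fun z : ℂ => z ^ m) '' ((minpoly F α).rootSet ℂ) := by
  classical
  have hαF : IsIntegral F α := hα.tower_top
  have hβF : IsIntegral F (α ^ m) := hαF.pow m
  set R := (minpoly F α).rootSet ℂ with hR
  set R' := (minpoly F (α ^ m)).rootSet ℂ with hR'
  have hc := card_roots F hα
  have hc' := card_roots F (hα.pow m)
  have hmaps : ∀ z ∈ R, z ^ m ∈ R' := by
    intro z hz
    rw [hR', mem_rootSet]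
    refine ⟨minpoly.ne_zero hβF, ?_⟩
    have h1 : minpoly F α ∣ (minpoly F (α ^ m)).comp (X ^ m) := by
      apply minpoly.dvd
      rw [aeval_comp, map_pow, aeval_X]
      exact minpoly.aeval F (α ^ m)
    obtain ⟨A, hA⟩ := h1
    have h2 := congrArg (aeval z) hA
    rw [aeval_comp, map_pow, aeval_X, map_mul, (mem_rootSet.mp hz).2, zero_mul] at h2
    exact h2
  have hinj : Set.InjOn (fun z : ℂ => z ^ m) R := by
    intro z hz z' hz' h
    by_contra hne
    exact hnd z hz z' hz' hne m hm h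
  have hle : (minpoly F (α ^ m)).natDegree ≤ (minpoly F α).natDegree := by
    rw [← adjoin.finrank hβF, ← adjoin.finrank hαF]
    have h1 : F⟮α ^ m⟯ ≤ F⟮α⟯ := by
      rw [adjoin_simple_le_iff]
      exact pow_mem (mem_adjoin_simple_self F α) m
    have : FiniteDimensional F F⟮α⟯ := adjoin.finiteDimensional hαF
    exact IntermediateField.finrank_le_of_le_right h1
  have hRfin : R.Finite := rootSet_finite _ _
  have hR'fin : R'.Finite := rootSet_finite _ _
  have hsub : (fun z : ℂ => z ^ m) '' R ⊆ R' := by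
    rintro _ ⟨z, hz, rfl⟩
    exact hmaps z hz
  have hn1 : R.ncard = (minpoly F α).natDegree := by
    rw [← hc, Set.ncard_eq_toFinset_card', Set.toFinset_card]
  have hn2 : R'.ncard = (minpoly F (α ^ m)).natDegree := by
    rw [← hc', Set.ncard_eq_toFinset_card', Set.toFinset_card]
  have hn3 : ((fun z : ℂ => z ^ m) '' R).ncard = R.ncard := hinj.ncard_image
  have heq : (fun z : ℂ => z ^ m) '' R = R' := by
    apply Set.eq_of_subset_of_ncard_le hsub _ hR'fin
    rw [hn3, hn1, hn2]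
    exact hle
  refine ⟨?_, heq.symm⟩
  rw [← hn1, ← hn2, ← heq, hn3]

/-- sums over the conjugates of a power -/
theorem sum_pow_conj (F : IntermediateField ℚ ℂ) {α : ℂ} (hα : IsIntegral ℤ α)
    (hnd : ∀ z ∈ (minpoly F α).rootSet ℂ, ∀ z' ∈ (minpoly F α).rootSet ℂ, z ≠ z' →
      ∀ m : ℕ, 0 < m → z ^ m ≠ z' ^ m) {m : ℕ} (hm : 0 < m) :
    ∑ z : (minpoly F (α ^ m)).rootSet ℂ, (z : ℂ) = ∑ z : (minpoly F α).rootSet ℂ, (z : ℂ) ^ m := by
  classical
  obtain ⟨-, h⟩ := pow_conj F hα hnd hm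
  symm
  refine Finset.sum_bij (fun z _ => ⟨(z : ℂ) ^ m, by rw [h]; exact ⟨z, z.2, rfl⟩⟩)
    (fun _ _ => Finset.mem_univ _) ?_ ?_ (fun _ _ => rfl)
  · intro z _ z' _ e
    by_contra hne
    exact hnd z z.2 z' z'.2 (fun e' => hne (Subtype.ext e')) m hm (congrArg Subtype.val e)
  · intro y _
    have h1 : (y : ℂ) ∈ (fun z : ℂ => z ^ m) '' ((minpoly F α).rootSet ℂ) := h ▸ y.2
    obtain ⟨z, hz, hzy⟩ := h1
    exact ⟨⟨z, hz⟩, Finset.mem_univ _, Subtype.ext hzy⟩

end Pool.Agent.X184.Rel
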